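import Mathlib

/-!
# Damped linear oscillators in dimension `d`: definitions
-/

namespace Pool.Agent.R299.Osc

open MeasureTheory Filter Set
open scoped Topology ENNReal

/-- `u` is a solution, with velocity `v`, of `u'' + c u' + A u = f` on `[0, ∞)`: `u` is `C¹` on
`[0, ∞)` with derivative `v`, `v` is locally absolutely continuous on `[0, ∞)` and
`v' = f - c v - A u` almost everywhere on `(0, ∞)`. -/
structure IsSol {d : ℕ} (A : Matrix (Fin d) (Fin d) ℝ) (c : ℝ)
    (f u v : ℝ → EuclideanSpace ℝ (Fin d)) : Prop where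
  deriv_u : ∀ t, 0 ≤ t → HasDerivWithinAt u (v t) (Ici 0) t
  cont_v : ContinuousOn v (Ici 0)
  ac_v : ∀ t, 0 ≤ t → AbsolutelyContinuousOnInterval v 0 t
  eqn : ∀ᵐ t : ℝ, 0 < t → HasDerivAt v (f t - c • v t - Matrix.toEuclideanLin A (u t)) t

/-- essential limsup at infinity of the norm of the forcing -/
noncomputable def force {d : ℕ} (f : ℝ → EuclideanSpace ℝ (Fin d)) : ℝ≥0∞ :=
  limsup (fun t => ‖f t‖ₑ) (atTop ⊓ ae volume)

/-- `K` is admissible for `A` and `c`: for every locally integrable forcing `f` with finite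
essential limsup and every solution, `limsup |u'| ≤ K esslimsup |f|`. -/
def Admissible {d : ℕ} (A : Matrix (Fin d) (Fin d) ℝ) (c : ℝ) (K : ℝ≥0∞) : Prop :=
  ∀ f u v : ℝ → EuclideanSpace ℝ (Fin d), LocallyIntegrableOn f (Ici 0) → force f < ∞ →
    IsSol A c f u v → limsup (fun t => ‖v t‖ₑ) atTop ≤ K * force f

/-- the smallest admissible constant `K(A, c)` -/
noncomputable def K {d : ℕ} (A : Matrix (Fin d) (Fin d) ℝ) (c : ℝ) : ℝ≥0∞ :=
  sInf {K | Admissible A c K}

/-- `M_d`, with the value of `c` explicit: supremum of `c K(A, c)` over positive definite `A` -/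
noncomputable def M (d : ℕ) (c : ℝ) : ℝ≥0∞ :=
  ⨆ A : {A : Matrix (Fin d) (Fin d) ℝ // A.PosDef}, ENNReal.ofReal c * K A.1 c

/-- `L_d`: supremum over positive definite `A` of `liminf_{c → ∞} c K(A, c)` -/
noncomputable def L (d : ℕ) : ℝ≥0∞ :=
  ⨆ A : {A : Matrix (Fin d) (Fin d) ℝ // A.PosDef},
    liminf (fun c : ℝ => ENNReal.ofReal c * K A.1 c) atTop

end Pool.Agent.R299.Osc
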