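import Pool.Agent.R299.Osc.Kernel2

/-!
# Decay of the kernel and the formula of Duhamel for absolutely continuous velocities
-/

namespace Pool.Agent.R299.Osc

open MeasureTheory Filter Set Real
open scoped Topology

variable {c l : ℝ} {y g : ℝ → ℝ}

/-- energy decay -/
theorem IsKer.energy (h : IsKer c l y g) (hc : 0 < c) (hl : 0 < l) {s : ℝ} (hs : 0 ≤ s) :
    1 / 2 * g s ^ 2 + l * y s ^ 2 ≤ exp (-(c * l / (2 * (l + c ^ 2))) * s) := by
  set δ := c * l / (2 * (l + c ^ 2)) with hδ
  set V : ℝ → ℝ := fun s => g s ^ 2 + c * (g s * y s) + (l + c ^ 2 / 2) * y s ^ 2 with hV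
  have hVd : ∀ s, HasDerivAt V (-c * g s ^ 2 - c * l * y s ^ 2) s := by
    intro s
    refine ((((h.hg s).fun_pow 2).fun_add (((h.hg s).fun_mul (h.hy s)).const_mul c)).fun_add
      (((h.hy s).fun_pow 2).const_mul (l + c ^ 2 / 2))).congr_deriv ?_
    push_cast
    ring
  have hlc : 0 < l + c ^ 2 := by positivity
  have hδ1 : δ * (l + c ^ 2) = c * l / 2 := by
    rw [hδ]; field_simp
  have hδ0 : 0 < δ := by positivity
  have hδ2 : δ ≤ c / 2 := by
    rw [hδ, div_le_div_iff₀ (by positivity) (by positivity)]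
    nlinarith [mul_pos hc (pow_pos hc 2)]
  have hd : ∀ s, HasDerivAt (fun s => exp (δ * s) * V s)
      (exp (δ * s) * (δ * V s - c * g s ^ 2 - c * l * y s ^ 2)) s := by
    intro s
    refine ((exp_deriv δ s).fun_mul (hVd s)).congr_deriv ?_
    ring
  have ha : AntitoneOn (fun s => exp (δ * s) * V s) (Ici 0) := by
    apply antitoneOn_of_deriv_nonpos (convex_Ici _)
    · exact fun s _ => (hd s).continuousAt.continuousWithinAt
    · exact fun s _ => (hd s).differentiableAt.differentiableWithinAt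
    · intro s _
      rw [(hd s).deriv]
      apply mul_nonpos_of_nonneg_of_nonpos (exp_pos _).le
      have h1 : V s ≤ 3 / 2 * g s ^ 2 + (l + c ^ 2) * y s ^ 2 := by
        simp only [hV]
        nlinarith [sq_nonneg (g s - c * y s)]
      have h2 := mul_le_mul_of_nonneg_left h1 hδ0.le
      have h3 : δ * (3 / 2 * g s ^ 2) ≤ c * g s ^ 2 := by nlinarith [sq_nonneg (g s)]
      have h4 : δ * ((l + c ^ 2) * y s ^ 2) = c * l / 2 * y s ^ 2 := by rw [← mul_assoc, hδ1]
      have h5 : 0 ≤ c * l * y s ^ 2 := by positivity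
      nlinarith
  have h1 := ha (self_mem_Ici) (mem_Ici.2 hs) hs
  have hV0 : V 0 = 1 := by simp [hV, h.y0, h.g0]
  simp only [mul_zero, exp_zero, one_mul, hV0] at h1
  have h2 : 1 / 2 * g s ^ 2 + l * y s ^ 2 ≤ V s := by
    simp only [hV]
    nlinarith [sq_nonneg (g s + c * y s)]
  have h3 : exp (-δ * s) * exp (δ * s) = 1 := by rw [← exp_add]; simp
  have h4 := exp_pos (-δ * s)
  nlinarith [mul_le_mul_of_nonneg_left h1 h4.le]

theorem IsKer.tendsto_g (h : IsKer c l y g) (hc : 0 < c) (hl : 0 < l) :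
    Tendsto g atTop (𝓝 0) := by
  have hδ : 0 < c * l / (2 * (l + c ^ 2)) := by positivity
  have h1 : Tendsto (fun s => 2 * exp (-(c * l / (2 * (l + c ^ 2))) * s)) atTop (𝓝 0) := by
    have : Tendsto (fun s : ℝ => -(c * l / (2 * (l + c ^ 2))) * s) atTop atBot :=
      tendsto_id.const_mul_atTop_of_neg (by linarith)
    simpa using (tendsto_exp_atBot.comp this).const_mul 2
  have h2 : Tendsto (fun s => g s ^ 2) atTop (𝓝 0) := by
    apply squeeze_zero' (Eventually.of_forall fun s => sq_nonneg _) _ h1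
    filter_upwards [eventually_ge_atTop 0] with s hs
    have := h.energy hc hl hs
    nlinarith [sq_nonneg (y s), mul_nonneg hl.le (sq_nonneg (y s))]
  have h3 := h2.sqrt
  simp only [sqrt_sq_eq_abs, sqrt_zero] at h3
  exact (tendsto_zero_iff_abs_tendsto_zero _).2 h3

theorem IsKer.tendsto_y (h : IsKer c l y g) (hc : 0 < c) (hl : 0 < l) :
    Tendsto y atTop (𝓝 0) := by
  have hδ : 0 < c * l / (2 * (l + c ^ 2)) := by positivity
  have h1 : Tendsto (fun s => 1 / l * exp (-(c * l / (2 * (l + c ^ 2))) * s)) atTop (𝓝 0) := by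
    have : Tendsto (fun s : ℝ => -(c * l / (2 * (l + c ^ 2))) * s) atTop atBot :=
      tendsto_id.const_mul_atTop_of_neg (by linarith)
    simpa using (tendsto_exp_atBot.comp this).const_mul (1 / l)
  have h2 : Tendsto (fun s => y s ^ 2) atTop (𝓝 0) := by
    apply squeeze_zero' (Eventually.of_forall fun s => sq_nonneg _) _ h1
    filter_upwards [eventually_ge_atTop 0] with s hs
    have := h.energy hc hl hs
    rw [one_div, inv_mul_eq_div, le_div_iff₀ hl]
    nlinarith [sq_nonneg (g s)]
  have h3 := h2.sqrt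
  simp only [sqrt_sq_eq_abs, sqrt_zero] at h3
  exact (tendsto_zero_iff_abs_tendsto_zero _).2 h3

theorem ac_of_deriv {x v : ℝ → ℝ} {a b : ℝ} (hab : a ≤ b) (hv : ContinuousOn v (Icc a b))
    (hx : ∀ t ∈ Icc a b, HasDerivWithinAt x (v t) (Icc a b) t) :
    AbsolutelyContinuousOnInterval x a b := by
  obtain ⟨C, hC⟩ := isCompact_Icc.exists_bound_of_continuousOn hv
  have hC0 : 0 ≤ C := (norm_nonneg _).trans (hC a (left_mem_Icc.2 hab))
  have : LipschitzOnWith ⟨C, hC0⟩ x (uIcc a b) := by
    rw [uIcc_of_le hab]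
    apply (convex_Icc a b).lipschitzOnWith_of_nnnorm_hasDerivWithin_le hx
    intro t ht
    exact hC t ht
  exact this.absolutelyContinuousOnInterval

/-- the formula of Duhamel, in the form: the function `W` below is absolutely continuous with
derivative `g (t - s) φ s` -/
theorem duhamel (h : IsKer c l y g) {x v φ : ℝ → ℝ}
    (hx : ∀ t, 0 ≤ t → HasDerivWithinAt x (v t) (Ici 0) t)
    (hvc : ContinuousOn v (Ici 0))
    (hv : ∀ t, 0 ≤ t → AbsolutelyContinuousOnInterval v 0 t)
    (he : ∀ᵐ t : ℝ, 0 < t → HasDerivAt v (φ t - c * v t - l * x t) t)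
    {T t : ℝ} (hT : 0 ≤ T) (hTt : T ≤ t) :
    IntervalIntegrable (fun s => g (t - s) * φ s) volume T t ∧
    v t = g (t - T) * v T - l * (y (t - T) * x T) + ∫ s in T..t, g (t - s) * φ s := by
  have ht : 0 ≤ t := hT.trans hTt
  have hsub : uIcc T t ⊆ uIcc 0 t := by
    rw [uIcc_of_le hTt, uIcc_of_le ht]
    exact Icc_subset_Icc_left hT
  have hIci : Icc T t ⊆ Ici 0 := fun s hs => hT.trans hs.1
  have acv : AbsolutelyContinuousOnInterval v T t := (hv t ht).mono hsub
  have acx : AbsolutelyContinuousOnInterval x T t :=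
    ac_of_deriv hTt (hvc.mono hIci) fun s hs => (hx s (hIci hs)).mono hIci
  have hdg : ∀ s, HasDerivAt (fun s => g (t - s)) (-(-c * g (t - s) - l * y (t - s))) s := by
    intro s
    have := (h.hg (t - s)).comp_const_sub t s
    exact this
  have hdy : ∀ s, HasDerivAt (fun s => y (t - s)) (-(g (t - s))) s := by
    intro s
    have := (h.hy (t - s)).comp_const_sub t s
    exact this
  have hcg := h.cg
  have hcy := h.cy
  have acg : AbsolutelyContinuousOnInterval (fun s => g (t - s)) T t :=
    ac_of_deriv hTt (v := fun s => -(-c * g (t - s) - l * y (t - s)))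
      (Continuous.continuousOn (by fun_prop)) fun s _ => (hdg s).hasDerivWithinAt
  have acy : AbsolutelyContinuousOnInterval (fun s => y (t - s)) T t :=
    ac_of_deriv hTt (v := fun s => -(g (t - s)))
      (Continuous.continuousOn (by fun_prop)) fun s _ => (hdy s).hasDerivWithinAt
  have acW : AbsolutelyContinuousOnInterval
      (fun s => g (t - s) * v s - l * (y (t - s) * x s)) T t :=
    (acg.fun_mul acv).fun_sub ((acy.fun_mul acx).const_mul l)
  have hW : ∀ᵐ s : ℝ, s ∈ uIoc T t →
      deriv (fun s => g (t - s) * v s - l * (y (t - s) * x s)) s = g (t - s) * φ s := by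
    filter_upwards [he] with s hs hsm
    rw [uIoc_of_le hTt] at hsm
    have hs0 : 0 < s := lt_of_le_of_lt hT hsm.1
    have hxs : HasDerivAt x (v s) s := (hx s hs0.le).hasDerivAt (Ici_mem_nhds hs0)
    have := ((hdg s).fun_mul (hs hs0)).fun_sub (((hdy s).fun_mul hxs).const_mul l)
    rw [this.deriv]
    ring
  have h1 := acW.integral_deriv_eq_sub
  have h2 := acW.intervalIntegrable_deriv
  rw [intervalIntegral.integral_congr_ae hW] at h1
  constructor
  · apply h2.congr_ae
    rw [EventuallyEq, ae_restrict_iff' measurableSet_uIoc]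
    exact hW
  · rw [h1]
    simp only [sub_self, h.g0, h.y0]
    ring

end Pool.Agent.R299.Osc
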