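import Mathlib

/-!
# The velocity kernel of a damped scalar oscillator

`y'' + c y' + l y = 0`, `y 0 = 0`, `y' 0 = 1`, `g = y'`.  Main result: the excess of `|g s|` over
`exp (-c s)` has integral at most `1 / c`.
-/

namespace Pool.Agent.R299.Osc

open MeasureTheory Filter Set Real
open scoped Topology

/-- `(y, g)` is the fundamental pair of `y'' + c y' + l y = 0`. -/
structure IsKer (c l : ℝ) (y g : ℝ → ℝ) : Prop where
  hy : ∀ s, HasDerivAt y (g s) s
  hg : ∀ s, HasDerivAt g (-c * g s - l * y s) s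
  y0 : y 0 = 0
  g0 : g 0 = 1

variable {c l : ℝ} {y g : ℝ → ℝ}

theorem IsKer.cy (h : IsKer c l y g) : Continuous y :=
  continuous_iff_continuousAt.2 fun s => (h.hy s).continuousAt

theorem IsKer.cg (h : IsKer c l y g) : Continuous g :=
  continuous_iff_continuousAt.2 fun s => (h.hg s).continuousAt

/-- the excess -/
noncomputable def exc (c : ℝ) (g : ℝ → ℝ) (s : ℝ) : ℝ := max (|g s| - exp (-c * s)) 0

theorem exc_nonneg (c : ℝ) (g : ℝ → ℝ) (s : ℝ) : 0 ≤ exc c g s := le_max_right _ _

theorem le_exc (c : ℝ) (g : ℝ → ℝ) (s : ℝ) : |g s| ≤ exp (-c * s) + exc c g s := by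
  have := le_max_left (|g s| - exp (-c * s)) 0
  unfold exc
  linarith

theorem IsKer.cexc (h : IsKer c l y g) : Continuous (exc c g) := by
  unfold exc
  have := h.cg
  fun_prop

/-- where `y ≥ 0`, the kernel is at most `exp (-c s)` -/
theorem IsKer.g_le (h : IsKer c l y g) (hl : 0 ≤ l) {t : ℝ} (hy : ∀ s ∈ Icc 0 t, 0 ≤ y s) :
    ∀ s ∈ Icc 0 t, g s ≤ exp (-c * s) := by
  have hd : ∀ s, HasDerivAt (fun s => exp (c * s) * g s) (-(l * exp (c * s) * y s)) s := by
    intro s
    have h1 : HasDerivAt (fun s => exp (c * s)) (exp (c * s) * c) s := by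
      have := (hasDerivAt_id s).const_mul c
      simpa using this.exp
    exact (h1.fun_mul (h.hg s)).congr_deriv (by ring)
  have ha : AntitoneOn (fun s => exp (c * s) * g s) (Icc 0 t) := by
    apply antitoneOn_of_deriv_nonpos (convex_Icc _ _)
    · exact fun s _ => (hd s).continuousAt.continuousWithinAt
    · exact fun s _ => (hd s).differentiableAt.differentiableWithinAt
    · intro s hs
      rw [interior_Icc] at hs
      rw [(hd s).deriv]
      have := hy s ⟨hs.1.le, hs.2.le⟩
      have h2 := exp_pos (c * s)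
      have : 0 ≤ l * exp (c * s) * y s := by positivity
      linarith
  intro s hs
  have := ha (left_mem_Icc.2 (hs.1.trans hs.2)) hs hs.1
  simp only [mul_zero, exp_zero, one_mul, h.g0] at this
  have h2 : exp (-c * s) * exp (c * s) = 1 := by rw [← exp_add]; simp
  have h3 := exp_pos (-c * s)
  nlinarith [mul_le_mul_of_nonneg_left this h3.le]

theorem integral_exp_neg (c : ℝ) (hc : 0 < c) (a b : ℝ) :
    ∫ s in a..b, exp (-c * s) = (exp (-c * a) - exp (-c * b)) / c := by
  have hd : ∀ s ∈ uIcc a b, HasDerivAt (fun s => - exp (-c * s) / c) (exp (-c * s)) s := by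
    intro s _
    have h1 : HasDerivAt (fun s => exp (-c * s)) (exp (-c * s) * (-c)) s := by
      have := ((hasDerivAt_id s).const_mul (-c)).exp
      simpa using this
    exact ((h1.fun_neg).div_const c).congr_deriv (by field_simp)
  rw [intervalIntegral.integral_eq_sub_of_hasDerivAt hd
    (Continuous.intervalIntegrable (by fun_prop) _ _)]
  ring

theorem IsKer.integral_g (h : IsKer c l y g) (a b : ℝ) : ∫ s in a..b, g s = y b - y a :=
  intervalIntegral.integral_eq_sub_of_hasDerivAt (fun s _ => h.hy s)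
    (h.cg.intervalIntegrable _ _)

/-- the bound as long as `y ≥ 0` -/
theorem IsKer.exc_le_of_nonneg (h : IsKer c l y g) (hc : 0 < c) (hl : 0 ≤ l) {t : ℝ} (ht : 0 ≤ t)
    (hy : ∀ s ∈ Icc 0 t, 0 ≤ y s) : ∫ s in (0 : ℝ)..t, exc c g s ≤ 1 / c := by
  have h1 : ∫ s in (0 : ℝ)..t, exc c g s ≤ ∫ s in (0 : ℝ)..t, (exp (-c * s) - g s) := by
    apply intervalIntegral.integral_mono_on ht (h.cexc.intervalIntegrable _ _)
    · exact ((by fun_prop : Continuous fun s => exp (-c * s)).sub h.cg).intervalIntegrable _ _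
    · intro s hs
      have := h.g_le hl hy s hs
      have h2 := exp_pos (-c * s)
      unfold exc
      apply max_le
      · rcases abs_cases (g s) with h3 | h3 <;> linarith
      · linarith
  refine h1.trans ?_
  rw [intervalIntegral.integral_sub
    (Continuous.intervalIntegrable (by fun_prop) _ _) (h.cg.intervalIntegrable _ _),
    integral_exp_neg c hc, h.integral_g, h.y0]
  have h2 := exp_pos (-c * t)
  have h3 := hy t (right_mem_Icc.2 ht)
  simp only [mul_zero, exp_zero, sub_zero]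
  have : (1 - exp (-c * t)) / c ≤ 1 / c := by gcongr; linarith
  linarith

/-- the quadratic form -/
noncomputable def qf (c l : ℝ) (y g : ℝ → ℝ) (s : ℝ) : ℝ :=
  exp (c / 2 * s) * (2 * (8 * l - c ^ 2) / (c * (16 * l - 3 * c ^ 2)) * g s ^ 2
    + 8 * l / (16 * l - 3 * c ^ 2) * (g s * y s)
    + 16 * l ^ 2 / (c * (16 * l - 3 * c ^ 2)) * y s ^ 2)

theorem IsKer.qf_deriv (h : IsKer c l y g) (hc : 0 < c) (hl : c ^ 2 / 4 < l) (s : ℝ) :
    HasDerivAt (qf c l y g) (-(exp (c / 2 * s) * g s ^ 2)) s := by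
  have hD : 0 < 16 * l - 3 * c ^ 2 := by nlinarith
  have h1 : HasDerivAt (fun s => exp (c / 2 * s)) (exp (c / 2 * s) * (c / 2)) s := by
    have := ((hasDerivAt_id s).const_mul (c / 2)).exp
    simpa using this
  have h2 := (((h.hg s).fun_pow 2).const_mul
    (2 * (8 * l - c ^ 2) / (c * (16 * l - 3 * c ^ 2)))).fun_add
    (((h.hg s).fun_mul (h.hy s)).const_mul (8 * l / (16 * l - 3 * c ^ 2)))
  have h3 := h2.fun_add (((h.hy s).fun_pow 2).const_mul
    (16 * l ^ 2 / (c * (16 * l - 3 * c ^ 2))))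
  have h4 := h1.fun_mul h3
  refine HasDerivAt.congr_deriv h4 ?_
  have hc' := hc.ne'
  generalize exp (c / 2 * s) = E
  generalize hDe : 16 * l - 3 * c ^ 2 = D at hD ⊢
  have hD' := hD.ne'
  have hl' : l = (D + 3 * c ^ 2) / 16 := by rw [← hDe]; ring
  rw [hl']
  push_cast
  simp only [pow_one]
  field_simp
  ring

theorem IsKer.qf_nonneg (hc : 0 < c) (hl : c ^ 2 / 4 < l) (s : ℝ) :
    0 ≤ qf c l y g s := by
  have hD : 0 < 16 * l - 3 * c ^ 2 := by nlinarith
  have hl0 : 0 < l := lt_of_le_of_lt (by positivity) hl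
  unfold qf
  apply mul_nonneg (exp_pos _).le
  have : 2 * (8 * l - c ^ 2) / (c * (16 * l - 3 * c ^ 2)) * g s ^ 2
    + 8 * l / (16 * l - 3 * c ^ 2) * (g s * y s)
    + 16 * l ^ 2 / (c * (16 * l - 3 * c ^ 2)) * y s ^ 2
    = (2 * (8 * l - c ^ 2) * g s ^ 2 + 8 * l * c * (g s * y s) + 16 * l ^ 2 * y s ^ 2)
      / (c * (16 * l - 3 * c ^ 2)) := by
    field_simp
  rw [this]
  apply div_nonneg _ (by positivity)
  nlinarith [sq_nonneg (4 * l * y s + c * g s), sq_nonneg (g s), sq_nonneg (g s * c),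
    mul_nonneg (by linarith : (0 : ℝ) ≤ 16 * l - 3 * c ^ 2) (sq_nonneg (g s))]

/-- weighted square bound -/
theorem IsKer.sq_le (h : IsKer c l y g) (hc : 0 < c) (hl : c ^ 2 / 4 < l) {a t : ℝ} :
    ∫ s in a..t, exp (c / 2 * s) * g s ^ 2 ≤ qf c l y g a := by
  have hcont : Continuous fun s => exp (c / 2 * s) * g s ^ 2 := by
    have := h.cg
    fun_prop
  have h1 : ∫ s in a..t, -(exp (c / 2 * s) * g s ^ 2) = qf c l y g t - qf c l y g a :=
    intervalIntegral.integral_eq_sub_of_hasDerivAt (fun s _ => h.qf_deriv hc hl s)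
      (hcont.neg.intervalIntegrable _ _)
  rw [intervalIntegral.integral_neg] at h1
  have := IsKer.qf_nonneg (y := y) (g := g) hc hl t
  linarith

/-- strongly underdamped case -/
theorem IsKer.exc_le_of_large (h : IsKer c l y g) (hc : 0 < c) (hl : 3 * c ^ 2 / 8 ≤ l) {t : ℝ}
    (ht : 0 ≤ t) : ∫ s in (0 : ℝ)..t, exc c g s ≤ 1 / c := by
  have hl' : c ^ 2 / 4 < l := by nlinarith [sq_pos_of_pos hc]
  have hD : 0 < 16 * l - 3 * c ^ 2 := by nlinarith
  have hcg := h.cg
  have hq : ∀ s ∈ uIcc 0 t, HasDerivAt (fun s => (1 - exp (-(c / 2) * s)) ^ 3 / (3 * c))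
      (exp (-(c / 2) * s) * (1 - exp (-(c / 2) * s)) ^ 2 / 2) s := by
    intro s _
    have h1 : HasDerivAt (fun s => exp (-(c / 2) * s)) (exp (-(c / 2) * s) * (-(c / 2))) s := by
      have := ((hasDerivAt_id s).const_mul (-(c / 2))).exp
      simpa using this
    refine (((h1.const_sub 1).fun_pow 3).div_const (3 * c)).congr_deriv ?_
    have hc' := hc.ne'
    generalize exp (-(c / 2) * s) = E
    push_cast
    field_simp
  have h1 : ∫ s in (0 : ℝ)..t, exc c g s ≤ ∫ s in (0 : ℝ)..t, (1 / 2 * (exp (c / 2 * s) * g s ^ 2)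
      + exp (-(c / 2) * s) * (1 - exp (-(c / 2) * s)) ^ 2 / 2) := by
    apply intervalIntegral.integral_mono_on ht (h.cexc.intervalIntegrable _ _)
    · apply Continuous.intervalIntegrable
      fun_prop
    · intro s hs
      set q := exp (-(c / 2) * s) with hq0
      have hqp : 0 < q := exp_pos _
      have e1 : exp (-c * s) = q ^ 2 := by
        rw [hq0, ← exp_nat_mul]
        congr 1
        push_cast
        ring
      have e2 : exp (c / 2 * s) = 1 / q := by
        rw [hq0, one_div, ← exp_neg]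
        congr 1
        ring
      unfold exc
      rw [e1, e2]
      have h5 : 0 ≤ q * (1 - q) ^ 2 / 2 := by positivity
      apply max_le
      · have h6 : |g s| ≤ 1 / 2 * (1 / q * g s ^ 2) + q / 2 := by
          have h7 : 1 / 2 * (1 / q * g s ^ 2) + q / 2 - |g s| = (|g s| - q) ^ 2 / (2 * q) := by
            rw [← sq_abs (g s)]
            field_simp
            ring
          have h8 : 0 ≤ (|g s| - q) ^ 2 / (2 * q) := by positivity
          linarith
        nlinarith [pow_pos hqp 3]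
      · positivity
  refine h1.trans ?_
  rw [intervalIntegral.integral_add (Continuous.intervalIntegrable (by fun_prop) _ _)
    (Continuous.intervalIntegrable (by fun_prop) _ _), intervalIntegral.integral_const_mul,
    intervalIntegral.integral_eq_sub_of_hasDerivAt hq
      (Continuous.intervalIntegrable (by fun_prop) _ _)]
  have h2 := h.sq_le hc hl' (a := 0) (t := t)
  have h3 : qf c l y g 0 = 2 * (8 * l - c ^ 2) / (c * (16 * l - 3 * c ^ 2)) := by
    simp [qf, h.y0, h.g0]
  have h4 : 2 * (8 * l - c ^ 2) / (c * (16 * l - 3 * c ^ 2)) ≤ 4 / (3 * c) := by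
    rw [div_le_div_iff₀ (by positivity) (by positivity)]
    nlinarith
  have h5 : (1 - exp (-(c / 2) * t)) ^ 3 / (3 * c) ≤ 1 / (3 * c) := by
    gcongr
    have h6 : exp (-(c / 2) * t) ≤ 1 := exp_le_one_iff.2 (by nlinarith)
    have h7 := exp_pos (-(c / 2) * t)
    exact pow_le_one₀ (by linarith) (by linarith)
  have h6 : 4 / (3 * c) / 2 + 1 / (3 * c) = 1 / c := by
    field_simp
    norm_num
  simp only [mul_zero, exp_zero, sub_self]
  rw [h3] at h2
  have h7 : (0 : ℝ) ^ 3 / (3 * c) = 0 := by norm_num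
  rw [h7, ← h6]
  linarith

end Pool.Agent.R299.Osc
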