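import Pool.Agent.R299.Osc.Kernel

/-!
# Existence of the kernel and the bound of the excess
-/

namespace Pool.Agent.R299.Osc

open MeasureTheory Filter Set Real
open scoped Topology

variable {c l : ℝ} {y g : ℝ → ℝ}

theorem exp_deriv (a s : ℝ) : HasDerivAt (fun s => exp (a * s)) (exp (a * s) * a) s := by
  have := ((hasDerivAt_id s).const_mul a).exp
  simpa using this

theorem exists_ker_over (hl : 0 < l) (hcl : l ≤ c ^ 2 / 4) (hc : 0 < c) :
    ∃ y g, IsKer c l y g ∧ ∀ s, 0 ≤ s → 0 ≤ y s := by
  obtain ⟨r, hr0, hr⟩ : ∃ r : ℝ, 0 ≤ r ∧ r ^ 2 = c ^ 2 - 4 * l :=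
    ⟨√(c ^ 2 - 4 * l), sqrt_nonneg _, sq_sqrt (by linarith)⟩
  have hcont : Continuous fun x => exp (-r * x) := by fun_prop
  have hY : ∀ s, HasDerivAt (fun s => exp (-((c - r) / 2) * s) * ∫ x in (0 : ℝ)..s, exp (-r * x))
      (exp (-((c + r) / 2) * s) - (c - r) / 2 *
        (exp (-((c - r) / 2) * s) * ∫ x in (0 : ℝ)..s, exp (-r * x))) s := by
    intro s
    have h2 := (hcont.integral_hasStrictDerivAt 0 s).hasDerivAt
    have h3 := (exp_deriv (-((c - r) / 2)) s).fun_mul h2
    refine h3.congr_deriv ?_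
    have h4 : exp (-((c + r) / 2) * s) = exp (-((c - r) / 2) * s) * exp (-r * s) := by
      rw [← exp_add]
      congr 1
      ring
    rw [h4]
    ring
  refine ⟨fun s => exp (-((c - r) / 2) * s) * ∫ x in (0 : ℝ)..s, exp (-r * x),
    fun s => exp (-((c + r) / 2) * s) - (c - r) / 2 *
        (exp (-((c - r) / 2) * s) * ∫ x in (0 : ℝ)..s, exp (-r * x)), ⟨hY, ?_, by simp, by simp⟩, ?_⟩
  · intro s
    refine ((exp_deriv (-((c + r) / 2)) s).fun_sub ((hY s).const_mul ((c - r) / 2))).congr_deriv ?_
    have hl' : l = (c ^ 2 - r ^ 2) / 4 := by linarith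
    rw [hl']
    ring
  · intro s hs
    apply mul_nonneg (exp_pos _).le
    exact intervalIntegral.integral_nonneg hs fun x _ => (exp_pos _).le

theorem under_ker {w : ℝ} (hw : 0 < w) (hwl : w ^ 2 = l - c ^ 2 / 4) :
    IsKer c l (fun s => exp (-(c / 2) * s) * (sin (w * s) / w))
      (fun s => exp (-(c / 2) * s) * (cos (w * s) - c / (2 * w) * sin (w * s))) := by
  have hS : ∀ s, HasDerivAt (fun s => sin (w * s)) (w * cos (w * s)) s := by
    intro s
    have := ((hasDerivAt_id s).const_mul w).sin
    refine this.congr_deriv ?_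
    simp
    ring
  have hC : ∀ s, HasDerivAt (fun s => cos (w * s)) (-(w * sin (w * s))) s := by
    intro s
    have := ((hasDerivAt_id s).const_mul w).cos
    refine this.congr_deriv ?_
    simp
    ring
  have hw' := hw.ne'
  refine ⟨?_, ?_, by simp, by simp⟩
  · intro s
    refine ((exp_deriv (-(c / 2)) s).fun_mul ((hS s).div_const w)).congr_deriv ?_
    field_simp
    ring
  · intro s
    refine ((exp_deriv (-(c / 2)) s).fun_mul
      ((hC s).fun_sub ((hS s).const_mul (c / (2 * w))))).congr_deriv ?_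
    have hl' : l = w ^ 2 + c ^ 2 / 4 := by linarith
    rw [hl']
    field_simp
    ring

theorem mul_cos_le_sin {x : ℝ} (h0 : 0 ≤ x) (h1 : x ≤ π) : x * cos x ≤ sin x := by
  rcases le_or_gt x (π / 2) with h | h
  · rcases h.lt_or_eq with h2 | h2
    · have hc : 0 < cos x := cos_pos_of_mem_Ioo ⟨by linarith [pi_pos], h2⟩
      have h3 := le_tan h0 h2
      rw [tan_eq_sin_div_cos, le_div_iff₀ hc] at h3
      exact h3
    · rw [h2]; simp
  · have hc : cos x ≤ 0 := cos_nonpos_of_pi_div_two_le_of_le h.le (by linarith)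
    have hs : 0 ≤ sin x := sin_nonneg_of_nonneg_of_le_pi h0 h1
    nlinarith

/-- mildly underdamped case -/
theorem exc_le_mild {w : ℝ} (hc : 0 < c) (hw : 0 < w) (hwl : w ^ 2 = l - c ^ 2 / 4)
    (hl : l ≤ 3 * c ^ 2 / 8) {t : ℝ} (ht : 0 ≤ t) :
    ∫ s in (0 : ℝ)..t,
      exc c (fun s => exp (-(c / 2) * s) * (cos (w * s) - c / (2 * w) * sin (w * s))) s
      ≤ 1 / c := by
  have hK := under_ker (c := c) hw hwl
  set g : ℝ → ℝ := fun s => exp (-(c / 2) * s) * (cos (w * s) - c / (2 * w) * sin (w * s)) with hg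
  set y : ℝ → ℝ := fun s => exp (-(c / 2) * s) * (sin (w * s) / w) with hy
  have hl0 : c ^ 2 / 4 < l := by nlinarith [sq_pos_of_pos hw]
  have hlp : 0 < l := lt_of_le_of_lt (by positivity) hl0
  set T := π / w with hT
  have hwT : w * T = π := by rw [hT]; field_simp
  have hTp : 0 < T := by rw [hT]; positivity
  have hwc : 14 * w ≤ 5 * c := by
    have : (14 * w) ^ 2 ≤ (5 * c) ^ 2 := by nlinarith
    exact le_of_sq_le_sq this (by positivity)
  have hcT : 6 ≤ c * T := by
    have h1 : 14 * π ≤ 5 * (c * T) := by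
      rw [← hwT]
      nlinarith
    linarith [pi_gt_three]
  have hnn : ∀ s ∈ Icc 0 T, 0 ≤ y s := by
    intro s hs
    apply mul_nonneg (exp_pos _).le
    apply div_nonneg _ hw.le
    apply sin_nonneg_of_nonneg_of_le_pi (mul_nonneg hw.le hs.1)
    rw [← hwT]
    exact mul_le_mul_of_nonneg_left hs.2 hw.le
  rcases le_or_gt t T with htT | htT
  · exact hK.exc_le_of_nonneg hc hlp.le ht fun s hs => hnn s ⟨hs.1, hs.2.trans htT⟩
  -- split at `T`
  have hi : ∀ a b, IntervalIntegrable (exc c g) volume a b := fun a b =>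
    hK.cexc.intervalIntegrable _ _
  rw [← intervalIntegral.integral_add_adjacent_intervals (hi 0 T) (hi T t)]
  have hgi : Continuous g := hK.cg
  have hpos : Continuous fun s => max (g s) 0 := by fun_prop
  -- first part
  have h1 : ∫ s in (0 : ℝ)..T, exc c g s ≤ ∫ s in (0 : ℝ)..T, max (g s) 0 := by
    have h2 : ∫ s in (0 : ℝ)..T, exc c g s ≤ ∫ s in (0 : ℝ)..T, (max (g s) 0 - g s) := by
      apply intervalIntegral.integral_mono_on hTp.le (hi _ _)
      · exact (hpos.sub hgi).intervalIntegrable _ _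
      · intro s hs
        have h3 := hK.g_le hlp.le hnn s hs
        have h4 := exp_pos (-c * s)
        unfold exc
        apply max_le
        · rcases le_or_gt 0 (g s) with h5 | h5
          · rw [abs_of_nonneg h5, max_eq_left h5]; linarith
          · rw [abs_of_neg h5, max_eq_right h5.le]; linarith
        · linarith [le_max_left (g s) 0]
    refine h2.trans_eq ?_
    rw [intervalIntegral.integral_sub (hpos.intervalIntegrable _ _) (hgi.intervalIntegrable _ _),
      hK.integral_g, hK.y0]
    have : y T = 0 := by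
      simp only [hy, hwT, sin_pi]
      simp
    rw [this]
    simp
  have h2c : 2 / c ≤ T := by
    rw [div_le_iff₀ hc]
    linarith
  have h2c0 : 0 ≤ 2 / c := by positivity
  have h2 : ∫ s in (0 : ℝ)..T, max (g s) 0 ≤ (1 - exp (-2)) / c := by
    rw [← intervalIntegral.integral_add_adjacent_intervals (hpos.intervalIntegrable 0 (2 / c))
      (hpos.intervalIntegrable (2 / c) T)]
    have h3 : ∫ s in (0 : ℝ)..(2 / c), max (g s) 0 ≤ ∫ s in (0 : ℝ)..(2 / c), exp (-c * s) := by
      apply intervalIntegral.integral_mono_on h2c0 (hpos.intervalIntegrable _ _)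
      · exact Continuous.intervalIntegrable (by fun_prop) _ _
      · intro s hs
        exact max_le (hK.g_le hlp.le hnn s ⟨hs.1, hs.2.trans h2c⟩) (exp_pos _).le
    have h4 : ∫ s in (2 / c)..T, max (g s) 0 = 0 := by
      rw [intervalIntegral.integral_congr (g := fun _ => (0 : ℝ))]
      · simp
      · intro s hs
        rw [uIcc_of_le h2c] at hs
        apply max_eq_right
        apply mul_nonpos_of_nonneg_of_nonpos (exp_pos _).le
        have hs0 : 0 < s := lt_of_lt_of_le (by positivity) hs.1
        have hws : w * s ≤ π := by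
          rw [← hwT]
          exact mul_le_mul_of_nonneg_left hs.2 hw.le
        have h5 := mul_cos_le_sin (mul_nonneg hw.le hs0.le) hws
        have h6 : 0 ≤ sin (w * s) :=
          sin_nonneg_of_nonneg_of_le_pi (mul_nonneg hw.le hs0.le) hws
        have h7 : 1 / (w * s) ≤ c / (2 * w) := by
          rw [div_le_div_iff₀ (by positivity) (by positivity)]
          have : 2 ≤ c * s := by
            have := hs.1
            rw [div_le_iff₀ hc] at this
            linarith
          nlinarith
        have h8 : cos (w * s) ≤ 1 / (w * s) * sin (w * s) := by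
          rw [one_div, inv_mul_eq_div, le_div_iff₀ (by positivity)]
          linarith
        have h9 := mul_le_mul_of_nonneg_right h7 h6
        linarith
    rw [h4, add_zero]
    refine h3.trans_eq ?_
    rw [integral_exp_neg c hc]
    congr 2
    · simp
    · congr 1
      field_simp
  -- second part
  have h3 : ∫ s in T..t, exc c g s ≤ 2 * exp (-3) / c := by
    have h4 : ∫ s in T..t, exc c g s ≤
        ∫ s in T..t, (1 / 2 * (exp (c / 2 * s) * g s ^ 2) + 1 / 2 * exp (-(c / 2) * s)) := by
      apply intervalIntegral.integral_mono_on htT.le (hi _ _)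
      · exact Continuous.intervalIntegrable (by fun_prop) _ _
      · intro s _
        have hq := exp_pos (-(c / 2) * s)
        have e2 : exp (c / 2 * s) = 1 / exp (-(c / 2) * s) := by
          rw [one_div, ← exp_neg]
          congr 1
          ring
        rw [e2]
        set q := exp (-(c / 2) * s)
        have h6 : |g s| ≤ 1 / 2 * (1 / q * g s ^ 2) + 1 / 2 * q := by
          have h7 : 1 / 2 * (1 / q * g s ^ 2) + 1 / 2 * q - |g s| = (|g s| - q) ^ 2 / (2 * q) := by
            rw [← sq_abs (g s)]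
            field_simp
            ring
          have h8 : 0 ≤ (|g s| - q) ^ 2 / (2 * q) := by positivity
          linarith
        unfold exc
        apply max_le
        · linarith [exp_pos (-c * s)]
        · positivity
    refine h4.trans ?_
    rw [intervalIntegral.integral_add (Continuous.intervalIntegrable (by fun_prop) _ _)
      (Continuous.intervalIntegrable (by fun_prop) _ _), intervalIntegral.integral_const_mul,
      intervalIntegral.integral_const_mul, integral_exp_neg (c / 2) (by positivity)]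
    have h5 := hK.sq_le hc hl0 (a := T) (t := t)
    have hyT : y T = 0 := by
      simp only [hy, hwT, sin_pi]
      simp
    have hgT : g T = -exp (-(c / 2) * T) := by
      simp only [hg, hwT, sin_pi, cos_pi]
      ring
    have hE : exp (c / 2 * T) * exp (-(c / 2) * T) = 1 := by rw [← exp_add]; simp
    have h6 : qf c l y g T = exp (-(c / 2) * T) * (2 * (8 * l - c ^ 2) / (c * (16 * l - 3 * c ^ 2))) := by
      unfold qf
      rw [hyT, hgT]
      have : exp (c / 2 * T) * (2 * (8 * l - c ^ 2) / (c * (16 * l - 3 * c ^ 2)) *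
          (-exp (-(c / 2) * T)) ^ 2 + 8 * l / (16 * l - 3 * c ^ 2) * (-exp (-(c / 2) * T) * 0) +
          16 * l ^ 2 / (c * (16 * l - 3 * c ^ 2)) * 0 ^ 2)
          = (exp (c / 2 * T) * exp (-(c / 2) * T)) * exp (-(c / 2) * T) *
            (2 * (8 * l - c ^ 2) / (c * (16 * l - 3 * c ^ 2))) := by ring
      rw [this, hE]
      ring
    have hD : 0 < 16 * l - 3 * c ^ 2 := by nlinarith
    have h7 : 2 * (8 * l - c ^ 2) / (c * (16 * l - 3 * c ^ 2)) ≤ 2 / c := by
      rw [div_le_div_iff₀ (by positivity) (by positivity)]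
      nlinarith
    have h8 : exp (-(c / 2) * T) ≤ exp (-3) := by
      apply exp_le_exp.2
      linarith
    have h9 := exp_pos (-(c / 2) * T)
    have h10 : qf c l y g T ≤ exp (-(c / 2) * T) * (2 / c) := by
      rw [h6]
      exact mul_le_mul_of_nonneg_left h7 h9.le
    have h11 : 1 / 2 * ((exp (-(c / 2) * T) - exp (-(c / 2) * t)) / (c / 2)) ≤
        exp (-(c / 2) * T) / c := by
      have := exp_pos (-(c / 2) * t)
      have e : 1 / 2 * ((exp (-(c / 2) * T) - exp (-(c / 2) * t)) / (c / 2))
        = (exp (-(c / 2) * T) - exp (-(c / 2) * t)) / c := by field_simp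
      rw [e]
      gcongr
      linarith
    calc 1 / 2 * (∫ x in T..t, exp (c / 2 * x) * g x ^ 2)
          + 1 / 2 * ((exp (-(c / 2) * T) - exp (-(c / 2) * t)) / (c / 2))
        ≤ 1 / 2 * (exp (-(c / 2) * T) * (2 / c)) + exp (-(c / 2) * T) / c := by
          linarith
      _ = 2 * exp (-(c / 2) * T) / c := by ring
      _ ≤ 2 * exp (-3) / c := by gcongr
  have h4 : 2 * exp (-3) ≤ exp (-2) := by
    have h5 : exp (-2) = exp 1 * exp (-3) := by rw [← exp_add]; norm_num
    rw [h5]
    have := exp_one_gt_d9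
    nlinarith [exp_pos (-3)]
  calc (∫ s in (0 : ℝ)..T, exc c g s) + ∫ s in T..t, exc c g s
      ≤ (1 - exp (-2)) / c + 2 * exp (-3) / c := add_le_add (h1.trans h2) h3
    _ = (1 - exp (-2) + 2 * exp (-3)) / c := by ring
    _ ≤ 1 / c := by
      gcongr
      linarith

/-- the kernel exists and the excess of `|g s|` over `exp (-c s)` has integral at most `1 / c` -/
theorem exists_ker (hc : 0 < c) (hl : 0 < l) :
    ∃ y g, IsKer c l y g ∧ ∀ t, 0 ≤ t → ∫ s in (0 : ℝ)..t, exc c g s ≤ 1 / c := by
  rcases le_or_gt l (c ^ 2 / 4) with h | h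
  · obtain ⟨y, g, hK, hy⟩ := exists_ker_over hl h hc
    exact ⟨y, g, hK, fun t ht => hK.exc_le_of_nonneg hc hl.le ht fun s hs => hy s hs.1⟩
  · have hw : 0 < √(l - c ^ 2 / 4) := sqrt_pos.2 (by linarith)
    have hwl : √(l - c ^ 2 / 4) ^ 2 = l - c ^ 2 / 4 := sq_sqrt (by linarith)
    refine ⟨_, _, under_ker (c := c) hw hwl, fun t ht => ?_⟩
    rcases le_or_gt (3 * c ^ 2 / 8) l with h2 | h2
    · exact (under_ker (c := c) hw hwl).exc_le_of_large hc h2 ht
    · exact exc_le_mild hc hw hwl h2.le ht

end Pool.Agent.R299.Osc
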