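import Pool.Agent.R299.Osc.Lower

/-!
# The limit of the lower bound
-/

namespace Pool.Agent.R299.Osc

open MeasureTheory Filter Set Real
open scoped Topology ENNReal

/-- the position kernel in scaled variables -/
noncomputable def Y (κ a : ℝ) : ℝ :=
  (exp (-((1 - √(1 - 4 * κ)) / 2) * a) - exp (-((1 + √(1 - 4 * κ)) / 2) * a)) / √(1 - 4 * κ)

theorem yk_scale {c κ a : ℝ} (hc : 0 < c) :
    yk (c * ((1 - √(1 - 4 * κ)) / 2)) (c * ((1 + √(1 - 4 * κ)) / 2)) (a / c) = Y κ a / c := by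
  unfold yk Y
  have e1 : -(c * ((1 - √(1 - 4 * κ)) / 2)) * (a / c) = -((1 - √(1 - 4 * κ)) / 2) * a := by
    field_simp
  have e2 : -(c * ((1 + √(1 - 4 * κ)) / 2)) * (a / c) = -((1 + √(1 - 4 * κ)) / 2) * a := by
    field_simp
  have e3 : c * ((1 + √(1 - 4 * κ)) / 2) - c * ((1 - √(1 - 4 * κ)) / 2) = √(1 - 4 * κ) * c := by
    ring
  rw [e1, e2, e3, div_div]

theorem tendsto_rho : Tendsto (fun κ : ℝ => √(1 - 4 * κ)) (𝓝[>] 0) (𝓝 1) := by
  have : Tendsto (fun κ : ℝ => √(1 - 4 * κ)) (𝓝 0) (𝓝 (√(1 - 4 * 0))) :=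
    Continuous.tendsto (by fun_prop) 0
  simp only [mul_zero, sub_zero, sqrt_one] at this
  exact this.mono_left nhdsWithin_le_nhds

theorem tendsto_Y (M : ℝ) : Tendsto (fun κ : ℝ => Y κ M) (𝓝[>] 0) (𝓝 (1 - exp (-M))) := by
  have h := tendsto_rho
  unfold Y
  have h1 : Tendsto (fun κ : ℝ => -((1 - √(1 - 4 * κ)) / 2) * M) (𝓝[>] 0)
      (𝓝 (-((1 - 1) / 2) * M)) := (((h.const_sub 1).div_const 2).neg).mul_const M
  have h2 : Tendsto (fun κ : ℝ => -((1 + √(1 - 4 * κ)) / 2) * M) (𝓝[>] 0)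
      (𝓝 (-((1 + 1) / 2) * M)) := (((h.const_add 1).div_const 2).neg).mul_const M
  have h3 := (((continuous_exp.tendsto _).comp h1).sub ((continuous_exp.tendsto _).comp h2)).div h
    one_ne_zero
  have e : (exp (-((1 - 1) / 2) * M) - exp (-((1 + 1) / 2) * M)) / 1 = 1 - exp (-M) := by
    norm_num
  rw [← e]
  exact h3

theorem tendsto_Y_div {a : ℝ} (ha : 0 < a) :
    Tendsto (fun κ : ℝ => Y κ (a / κ)) (𝓝[>] 0) (𝓝 (exp (-a))) := by
  have h := tendsto_rho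
  have h1 : Tendsto (fun κ : ℝ => -((1 - √(1 - 4 * κ)) / 2) * (a / κ)) (𝓝[>] 0) (𝓝 (-a)) := by
    have h2 : Tendsto (fun κ : ℝ => -(2 * a / (1 + √(1 - 4 * κ)))) (𝓝[>] 0)
        (𝓝 (-(2 * a / (1 + 1)))) :=
      (tendsto_const_nhds.div (h.const_add 1) (by norm_num)).neg
    have e : -(2 * a / (1 + 1)) = -a := by ring
    rw [e] at h2
    apply h2.congr'
    have h3 : ∀ᶠ κ : ℝ in 𝓝[>] 0, κ < 1 / 4 :=
      nhdsWithin_le_nhds (gt_mem_nhds (by norm_num))
    filter_upwards [self_mem_nhdsWithin, h3] with κ hκ hκ4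
    have hκ0 : (0 : ℝ) < κ := hκ
    have h5 : √(1 - 4 * κ) * √(1 - 4 * κ) = 1 - 4 * κ := mul_self_sqrt (by linarith)
    have h6 : 0 ≤ √(1 - 4 * κ) := sqrt_nonneg _
    generalize √(1 - 4 * κ) = ρ at h5 h6
    have h7 : κ = (1 - ρ * ρ) / 4 := by linarith
    have h8 : 1 + ρ ≠ 0 := by positivity
    have h9 : 1 - ρ ≠ 0 := by
      intro h10
      have : ρ = 1 := by linarith
      rw [this] at h7
      norm_num at h7
      exact hκ0.ne' h7
    have h10 : κ ≠ 0 := hκ0.ne'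
    have h11 : (1 - ρ) * (1 + ρ) = 4 * κ := by linarith
    field_simp
    linear_combination h11
  have h2 : Tendsto (fun κ : ℝ => -((1 + √(1 - 4 * κ)) / 2) * (a / κ)) (𝓝[>] 0) atBot := by
    have h3 : Tendsto (fun κ : ℝ => κ⁻¹) (𝓝[>] 0) atTop := tendsto_inv_nhdsGT_zero
    have h4 : Tendsto (fun κ : ℝ => -((1 + √(1 - 4 * κ)) / 2) * a) (𝓝[>] 0)
        (𝓝 (-((1 + 1) / 2) * a)) := (((h.const_add 1).div_const 2).neg).mul_const a
    have h5 := h4.neg_mul_atTop (by linarith) h3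
    apply h5.congr
    intro κ
    rw [mul_assoc, ← div_eq_mul_inv]
  unfold Y
  have h3 := (((continuous_exp.tendsto _).comp h1).sub (tendsto_exp_atBot.comp h2)).div h
    one_ne_zero
  have e : (exp (-a) - 0) / 1 = exp (-a) := by norm_num
  rw [← e]
  exact h3

theorem exists_window {d : ℕ} {η : ℝ} (hη : η < 1 + √d) :
    ∃ n : ℕ, 0 < n ∧ η < (1 - exp (-(n : ℝ))) + √d * (exp (-(1 / (n : ℝ))) - exp (-(n : ℝ))) := by
  have h1 : Tendsto (fun n : ℕ => exp (-(n : ℝ))) atTop (𝓝 0) :=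
    tendsto_exp_atBot.comp (tendsto_neg_atTop_atBot.comp tendsto_natCast_atTop_atTop)
  have h2 : Tendsto (fun n : ℕ => exp (-(1 / (n : ℝ)))) atTop (𝓝 1) := by
    have h3 : Tendsto (fun n : ℕ => -(1 / (n : ℝ))) atTop (𝓝 (-0)) :=
      tendsto_one_div_atTop_nhds_zero_nat.neg
    have := (continuous_exp.tendsto _).comp h3
    simpa [Function.comp_def] using this
  have h3 : Tendsto (fun n : ℕ => (1 - exp (-(n : ℝ))) + √d * (exp (-(1 / (n : ℝ))) -
      exp (-(n : ℝ)))) atTop (𝓝 ((1 - 0) + √d * (1 - 0))) :=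
    (h1.const_sub 1).add ((h2.sub h1).const_mul _)
  have h4 := h3.eventually (lt_mem_nhds (by simpa using hη))
  obtain ⟨n, hn1, hn2⟩ := ((eventually_gt_atTop 0).and h4).exists
  exact ⟨n, hn1, hn2⟩

theorem lower_limit {d : ℕ} (hd : 0 < d) {η : ℝ} (hη : η < 1 + √d) :
    ∃ R : ℝ, 0 < R ∧ ∀ᶠ δ : ℝ in 𝓝[>] 0, ∀ c : ℝ, 0 < c → ∀ K : ℝ≥0∞,
      Admissible (Matrix.diagonal fun i : Fin d => c ^ 2 * (δ * R ^ (i : ℕ))) c K →
      ENNReal.ofReal (η / c) ≤ K := by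
  obtain ⟨n, hn, hnη⟩ := exists_window hη
  have hn1 : (1 : ℝ) ≤ n := by exact_mod_cast hn
  have hn0 : (0 : ℝ) < n := by linarith
  have hd0 : (0 : ℝ) < d := by exact_mod_cast hd
  have hsd : 0 < √(d : ℝ) := sqrt_pos.2 hd0
  refine ⟨(n : ℝ) ^ 2, by positivity, ?_⟩
  have hκ : ∀ i : Fin d, Tendsto (fun δ : ℝ => δ * ((n : ℝ) ^ 2) ^ (i : ℕ)) (𝓝[>] 0) (𝓝[>] 0) := by
    intro i
    apply tendsto_nhdsWithin_of_tendsto_nhds_of_eventually_within
    · have : Tendsto (fun δ : ℝ => δ * ((n : ℝ) ^ 2) ^ (i : ℕ)) (𝓝 0)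
          (𝓝 (0 * ((n : ℝ) ^ 2) ^ (i : ℕ))) := Continuous.tendsto (by fun_prop) 0
      rw [zero_mul] at this
      exact this.mono_left nhdsWithin_le_nhds
    · filter_upwards [self_mem_nhdsWithin] with δ hδ
      have : (0 : ℝ) < δ := hδ
      exact mem_Ioi.2 (by positivity)
  have hlim : Tendsto (fun δ : ℝ => ∑ i : Fin d, (Y (δ * ((n : ℝ) ^ 2) ^ (i : ℕ)) n / d +
      (Y (δ * ((n : ℝ) ^ 2) ^ (i : ℕ)) (1 / n / (δ * ((n : ℝ) ^ 2) ^ (i : ℕ))) -
        Y (δ * ((n : ℝ) ^ 2) ^ (i : ℕ)) (n / (δ * ((n : ℝ) ^ 2) ^ (i : ℕ)))) / √d)) (𝓝[>] 0)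
      (𝓝 (∑ _i : Fin d, ((1 - exp (-(n : ℝ))) / d +
        (exp (-(1 / (n : ℝ))) - exp (-(n : ℝ))) / √d))) := by
    apply tendsto_finsetSum
    intro i _
    exact (((tendsto_Y n).comp (hκ i)).div_const _).add
      ((((tendsto_Y_div (by positivity : (0 : ℝ) < 1 / n)).comp (hκ i)).sub
        ((tendsto_Y_div hn0).comp (hκ i))).div_const _)
  have hval : (∑ _i : Fin d, ((1 - exp (-(n : ℝ))) / d +
        (exp (-(1 / (n : ℝ))) - exp (-(n : ℝ))) / √d)) =
      (1 - exp (-(n : ℝ))) + √d * (exp (-(1 / (n : ℝ))) - exp (-(n : ℝ))) := by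
    rw [Finset.sum_const, Finset.card_univ, Fintype.card_fin, nsmul_eq_mul, mul_add]
    congr 1
    · field_simp
    · have : (d : ℝ) = √d * √d := (mul_self_sqrt hd0.le).symm
      calc (d : ℝ) * ((exp (-(1 / (n : ℝ))) - exp (-(n : ℝ))) / √d)
          = (√(d : ℝ) * √d) * ((exp (-(1 / (n : ℝ))) - exp (-(n : ℝ))) / √d) := by rw [← this]
        _ = √d * (exp (-(1 / (n : ℝ))) - exp (-(n : ℝ))) := by field_simp
  rw [hval] at hlim
  have hsmall : ∀ᶠ δ : ℝ in 𝓝[>] 0, ∀ i : Fin d, δ * ((n : ℝ) ^ 2) ^ (i : ℕ) < 1 / (4 * n ^ 2) := by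
    rw [eventually_all]
    intro i
    exact ((hκ i).mono_right nhdsWithin_le_nhds).eventually (gt_mem_nhds (by positivity))
  filter_upwards [self_mem_nhdsWithin, hsmall, hlim.eventually (lt_mem_nhds hnη)]
    with δ hδ hδs hδη c hc K hK
  have hδ0 : (0 : ℝ) < δ := hδ
  set κ : Fin d → ℝ := fun i => δ * ((n : ℝ) ^ 2) ^ (i : ℕ) with hκdef
  have hκ0 : ∀ i, 0 < κ i := fun i => by positivity
  have hκ4 : ∀ i, κ i < 1 / 4 := by
    intro i
    refine (hδs i).trans_le ?_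
    apply one_div_le_one_div_of_le (by norm_num)
    nlinarith
  have hρ : ∀ i, 0 < √(1 - 4 * κ i) := fun i => sqrt_pos.2 (by linarith [hκ4 i])
  have hρ1 : ∀ i, √(1 - 4 * κ i) < 1 := by
    intro i
    rw [sqrt_lt' one_pos]
    linarith [hκ0 i]
  have hρ2 : ∀ i, √(1 - 4 * κ i) * √(1 - 4 * κ i) = 1 - 4 * κ i := fun i =>
    mul_self_sqrt (by linarith [hκ4 i])
  have hmain := lower_main (c := c) hd (m := fun i => c * ((1 - √(1 - 4 * κ i)) / 2))
    (p := fun i => c * ((1 + √(1 - 4 * κ i)) / 2)) (M := n / c)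
    (a := fun i => 1 / n / κ i / c) (b := fun i => n / κ i / c)
    (fun i => by have := hρ1 i; apply mul_pos hc; linarith)
    (fun i => by have := hρ i; apply mul_lt_mul_of_pos_left _ hc; linarith)
    (fun i => by ring) (by positivity) ?_ ?_ ?_ (K := K) ?_
  · refine le_trans ?_ hmain
    apply ENNReal.ofReal_le_ofReal
    simp only [yk_scale hc]
    have e : ∑ i : Fin d, (Y (κ i) n / c / d + (Y (κ i) (1 / n / κ i) / c -
        Y (κ i) (n / κ i) / c) / √d) =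
        (∑ i : Fin d, (Y (κ i) n / d + (Y (κ i) (1 / n / κ i) - Y (κ i) (n / κ i)) / √d)) / c := by
      rw [Finset.sum_div]
      apply Finset.sum_congr rfl
      intro i _
      ring
    rw [e]
    gcongr
  · intro i
    gcongr
    rw [le_div_iff₀ (hκ0 i), le_div_iff₀ hn0]
    have h1 := (hδs i).le
    have h2 : κ i * (4 * n ^ 2) ≤ 1 := by
      rwa [le_div_iff₀ (by positivity)] at h1
    nlinarith [hκ0 i, mul_pos (hκ0 i) (pow_pos hn0 2)]
  · intro i
    have := hκ0 i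
    gcongr
    rw [div_le_iff₀ hn0]
    nlinarith
  · have key : ∀ i j : Fin d, i < j → (n : ℝ) / κ j / c ≤ 1 / n / κ i / c := by
      intro i j hij
      apply div_le_div_of_nonneg_right _ hc.le
      rw [div_le_div_iff₀ (hκ0 j) (hκ0 i), div_mul_eq_mul_div, one_mul, le_div_iff₀ hn0]
      simp only [hκdef]
      have h1 : ((n : ℝ) ^ 2) ^ ((i : ℕ) + 1) ≤ ((n : ℝ) ^ 2) ^ (j : ℕ) :=
        pow_le_pow_right₀ (by nlinarith) (by exact_mod_cast hij)
      calc (n : ℝ) * (δ * ((n : ℝ) ^ 2) ^ (i : ℕ)) * n = δ * ((n : ℝ) ^ 2) ^ ((i : ℕ) + 1) := by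
            ring
        _ ≤ δ * ((n : ℝ) ^ 2) ^ (j : ℕ) := by gcongr
    intro i j hij
    rcases lt_or_gt_of_ne hij with h | h
    · exact Or.inr (key i j h)
    · exact Or.inl (key j i h)
  · have : (fun i : Fin d => c * ((1 - √(1 - 4 * κ i)) / 2) * (c * ((1 + √(1 - 4 * κ i)) / 2))) =
        fun i : Fin d => c ^ 2 * (δ * ((n : ℝ) ^ 2) ^ (i : ℕ)) := by
      funext i
      have h := hρ2 i
      have : c * ((1 - √(1 - 4 * κ i)) / 2) * (c * ((1 + √(1 - 4 * κ i)) / 2)) =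
          c ^ 2 * ((1 - √(1 - 4 * κ i) * √(1 - 4 * κ i)) / 4) := by ring
      rw [this, h]
      simp only [hκdef]
      ring
    rw [this]
    exact hK

variable {d : ℕ}

theorem M_le (d : ℕ) {c : ℝ} (hc : 0 < c) (A : Matrix (Fin d) (Fin d) ℝ) (hA : A.PosDef) :
    ENNReal.ofReal c * K A c ≤ ENNReal.ofReal (1 + √d) := by
  have h1 : K A c ≤ ENNReal.ofReal ((1 + √d) / c) := sInf_le (upper hA hc)
  calc ENNReal.ofReal c * K A c ≤ ENNReal.ofReal c * ENNReal.ofReal ((1 + √d) / c) := by gcongr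
    _ = ENNReal.ofReal (c * ((1 + √d) / c)) := (ENNReal.ofReal_mul hc.le).symm
    _ = ENNReal.ofReal (1 + √d) := by
      congr 1
      field_simp

theorem le_K (c η : ℝ) (hc : 0 < c) (A : Matrix (Fin d) (Fin d) ℝ)
    (h : ∀ K : ℝ≥0∞, Admissible A c K → ENNReal.ofReal (η / c) ≤ K) :
    ENNReal.ofReal η ≤ ENNReal.ofReal c * K A c := by
  have h1 : ENNReal.ofReal (η / c) ≤ K A c := le_sInf h
  calc ENNReal.ofReal η = ENNReal.ofReal (c * (η / c)) := by
        congr 1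
        field_simp
    _ = ENNReal.ofReal c * ENNReal.ofReal (η / c) := ENNReal.ofReal_mul hc.le
    _ ≤ ENNReal.ofReal c * K A c := by gcongr

theorem le_of_forall_real {a : ℝ} {x : ℝ≥0∞} (h : ∀ η, η < a → ENNReal.ofReal η ≤ x) :
    ENNReal.ofReal a ≤ x := by
  apply le_of_forall_lt
  intro z hz
  obtain ⟨w, hw1, hw2⟩ := exists_between hz
  have hwt : w ≠ ∞ := (hw2.trans ENNReal.ofReal_lt_top).ne
  have h1 : w.toReal < a := by
    rwa [ENNReal.lt_ofReal_iff_toReal_lt hwt] at hw2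
  have h2 := h _ h1
  rw [ENNReal.ofReal_toReal hwt] at h2
  exact hw1.trans_le h2

theorem M_eq (hd : 0 < d) {c : ℝ} (hc : 0 < c) : M d c = ENNReal.ofReal (1 + √d) := by
  apply le_antisymm
  · exact iSup_le fun A => M_le d hc A.1 A.2
  · apply le_of_forall_real
    intro η hη
    obtain ⟨R, hR, h⟩ := lower_limit hd hη
    have h0 : ∀ᶠ δ : ℝ in 𝓝[>] 0, 0 < δ := self_mem_nhdsWithin
    obtain ⟨δ, hδ0, h⟩ := (h0.and h).exists
    have hA : (Matrix.diagonal fun i : Fin d => c ^ 2 * (δ * R ^ (i : ℕ))).PosDef :=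
      Matrix.PosDef.diagonal fun i => by positivity
    exact (le_K c η hc _ (h c hc)).trans
      (le_iSup (fun A : {A : Matrix (Fin d) (Fin d) ℝ // A.PosDef} =>
        ENNReal.ofReal c * K A.1 c) ⟨_, hA⟩)

theorem L_eq (hd : 0 < d) : L d = ENNReal.ofReal (1 + √d) := by
  apply le_antisymm
  · apply iSup_le
    intro A
    apply liminf_le_of_frequently_le'
    apply Eventually.frequently
    filter_upwards [eventually_gt_atTop 0] with c hc
    exact M_le d hc A.1 A.2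
  · apply le_of_forall_real
    intro η hη
    obtain ⟨R, hR, h⟩ := lower_limit hd hη
    have hA : (Matrix.diagonal fun i : Fin d => R ^ (i : ℕ)).PosDef :=
      Matrix.PosDef.diagonal fun i => by positivity
    have h1 : Tendsto (fun c : ℝ => 1 / c ^ 2) atTop (𝓝[>] 0) := by
      apply tendsto_nhdsWithin_of_tendsto_nhds_of_eventually_within
      · simp only [one_div]
        exact tendsto_inv_atTop_zero.comp (tendsto_pow_atTop two_ne_zero)
      · filter_upwards [eventually_gt_atTop 0] with c hc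
        exact mem_Ioi.2 (by positivity)
    have h2 := h1.eventually h
    refine le_trans ?_ (le_iSup (fun A : {A : Matrix (Fin d) (Fin d) ℝ // A.PosDef} =>
      liminf (fun c : ℝ => ENNReal.ofReal c * K A.1 c) atTop) ⟨_, hA⟩)
    apply le_liminf_of_le
    · isBoundedDefault
    filter_upwards [eventually_gt_atTop 0, h2] with c hc hc2
    apply le_K c η hc
    have h3 := hc2 c hc
    have h4 : (fun i : Fin d => c ^ 2 * (1 / c ^ 2 * R ^ (i : ℕ))) = fun i : Fin d => R ^ (i : ℕ) := by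
      funext i
      field_simp
    rw [h4] at h3
    exact h3

end Pool.Agent.R299.Osc
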