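import Pool.Agent.R299.Osc.Scalar

/-!
# The lower bound: explicit forcing
-/

namespace Pool.Agent.R299.Osc

open MeasureTheory Filter Set Real
open scoped Topology ENNReal

/-- the vector with coordinates `a` -/
noncomputable def vec {d : ℕ} (a : Fin d → ℝ) : EuclideanSpace ℝ (Fin d) :=
  ∑ i, a i • EuclideanSpace.single i (1 : ℝ)

theorem vec_apply {d : ℕ} (a : Fin d → ℝ) (j : Fin d) : vec a j = a j := by
  unfold vec
  rw [WithLp.ofLp_sum, Finset.sum_apply]
  simp

theorem norm_vec_sq {d : ℕ} (a : Fin d → ℝ) : ‖vec a‖ ^ 2 = ∑ i, a i ^ 2 := by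
  rw [EuclideanSpace.norm_sq_eq]
  simp [vec_apply]

theorem ac_clm' {E G : Type*} [NormedAddCommGroup E] [NormedSpace ℝ E] [NormedAddCommGroup G]
    [NormedSpace ℝ G] {v : ℝ → E} {a b : ℝ}
    (h : AbsolutelyContinuousOnInterval v a b) (F : E →L[ℝ] G) :
    AbsolutelyContinuousOnInterval (fun t => F (v t)) a b := by
  unfold AbsolutelyContinuousOnInterval at h ⊢
  have h2 := h.const_mul ‖F‖
  rw [mul_zero] at h2
  apply squeeze_zero (fun t => Finset.sum_nonneg fun _ _ => dist_nonneg) (fun t => ?_) h2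
  rw [Finset.mul_sum]
  apply Finset.sum_le_sum
  intro i _
  rw [dist_eq_norm, dist_eq_norm, ← map_sub]
  exact F.le_opNorm _

theorem ac_vec {d : ℕ} {v : Fin d → ℝ → ℝ} {a b : ℝ}
    (h : ∀ i, AbsolutelyContinuousOnInterval (v i) a b) :
    AbsolutelyContinuousOnInterval (fun t => vec fun i => v i t) a b := by
  unfold vec
  have key : ∀ s : Finset (Fin d), AbsolutelyContinuousOnInterval
      (fun t => ∑ i ∈ s, v i t • EuclideanSpace.single i (1 : ℝ)) a b := by
    intro s
    induction s using Finset.induction_on with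
    | empty =>
      simp only [Finset.sum_empty]
      have : LipschitzOnWith 0 (fun _ : ℝ => (0 : EuclideanSpace ℝ (Fin d))) (uIcc a b) :=
        (LipschitzWith.const _).lipschitzOnWith
      exact this.absolutelyContinuousOnInterval
    | insert i s hi ih =>
      simp only [Finset.sum_insert hi]
      apply AbsolutelyContinuousOnInterval.fun_add _ ih
      exact ac_clm' (h i) ((ContinuousLinearMap.id ℝ ℝ).smulRight (EuclideanSpace.single i (1 : ℝ)))
  exact key Finset.univ

theorem hasDerivAt_vec {d : ℕ} {v : Fin d → ℝ → ℝ} {v' : Fin d → ℝ} {t : ℝ}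
    (h : ∀ i, HasDerivAt (v i) (v' i) t) : HasDerivAt (fun t => vec fun i => v i t) (vec v') t := by
  unfold vec
  exact HasDerivAt.fun_sum fun i _ => (h i).smul_const _

theorem hasDerivWithinAt_vec {d : ℕ} {v : Fin d → ℝ → ℝ} {v' : Fin d → ℝ} {t : ℝ} {s : Set ℝ}
    (h : ∀ i, HasDerivWithinAt (v i) (v' i) s t) :
    HasDerivWithinAt (fun t => vec fun i => v i t) (vec v') s t := by
  unfold vec
  exact HasDerivWithinAt.fun_sum fun i _ => (h i).smul_const _

theorem cont_vec {d : ℕ} {v : Fin d → ℝ → ℝ} (h : ∀ i, Continuous (v i)) :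
    Continuous (fun t => vec fun i => v i t) := by
  unfold vec
  exact continuous_finsetSum _ fun i _ => (h i).smul continuous_const

variable {d : ℕ} {c : ℝ}

theorem isSol_vec {m p : Fin d → ℝ} (hmp : ∀ i, m i < p i) (hc : ∀ i, m i + p i = c)
    {f : Fin d → ℝ → ℝ} (hf : ∀ i, Measurable (f i)) (hf1 : ∀ i t, |f i t| ≤ 1) :
    IsSol (Matrix.diagonal fun i => m i * p i) c (fun t => vec fun i => f i t)
      (fun t => vec fun i => xs (m i) (p i) (f i) t) (fun t => vec fun i => vs (m i) (p i) (f i) t) where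
  deriv_u t ht := hasDerivWithinAt_vec fun i => xs_deriv (hf i) (hf1 i) (hmp i) ht
  cont_v := (cont_vec fun i => vs_cont (hf i) (hf1 i)).continuousOn
  ac_v t ht := ac_vec fun i => vs_ac (hf i) (hf1 i) ht
  eqn := by
    have h := fun i => vs_deriv (hf i) (hf1 i) (hmp i)
    filter_upwards [ae_all_iff.2 h] with t ht ht0
    refine (hasDerivAt_vec fun i => ht i ht0).congr_deriv ?_
    ext j
    rw [vec_apply]
    simp only [PiLp.sub_apply, PiLp.smul_apply, vec_apply, smul_eq_mul, hc]
    congr 1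
    simp [Matrix.toLpLin_apply, Matrix.mulVec_diagonal, vec_apply]

/-- the pattern of the forcing in direction `i` -/
noncomputable def pat (r M a b : ℝ) (s : ℝ) : ℝ :=
  (Icc 0 M).indicator (fun _ => r) s - (Ioc a b).indicator (fun _ => 1) s

theorem pat_meas (r M a b : ℝ) : Measurable (pat r M a b) := by
  unfold pat
  exact (measurable_const.indicator measurableSet_Icc).sub
    (measurable_const.indicator measurableSet_Ioc)

theorem pat_sq {a b : Fin d → ℝ} {M : ℝ} (hMa : ∀ i, M ≤ a i)
    (hdis : ∀ i j, i ≠ j → b i ≤ a j ∨ b j ≤ a i) (s : ℝ) :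
    ∑ i, pat (1 / √d) M (a i) (b i) s ^ 2 ≤ 1 := by
  by_cases h : ∃ i, s ∈ Ioc (a i) (b i)
  · obtain ⟨i, hi⟩ := h
    have h1 : s ∉ Icc 0 M := fun h => absurd (h.2.trans (hMa i)) (not_le.2 hi.1)
    have h2 : ∀ j, pat (1 / √d) M (a j) (b j) s = if j = i then -1 else 0 := by
      intro j
      unfold pat
      rw [indicator_of_notMem h1]
      split_ifs with hj
      · rw [hj, indicator_of_mem hi]
        norm_num
      · have h3 : s ∉ Ioc (a j) (b j) := by
          intro h4
          rcases hdis i j (Ne.symm hj) with h5 | h5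
          · exact absurd (hi.2.trans h5) (not_le.2 h4.1)
          · exact absurd (h4.2.trans h5) (not_le.2 hi.1)
        rw [indicator_of_notMem h3]
        norm_num
    simp only [h2]
    simp
  · push Not at h
    have h2 : ∀ j, pat (1 / √d) M (a j) (b j) s ^ 2 ≤ 1 / d := by
      intro j
      unfold pat
      rw [indicator_of_notMem (h j), sub_zero]
      by_cases h3 : s ∈ Icc 0 M
      · rw [indicator_of_mem h3, div_pow, one_pow, sq_sqrt (Nat.cast_nonneg d)]
      · rw [indicator_of_notMem h3]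
        have : (0 : ℝ) ≤ 1 / d := by positivity
        simpa using this
    calc ∑ i, pat (1 / √d) M (a i) (b i) s ^ 2 ≤ ∑ _i : Fin d, (1 / d : ℝ) :=
          Finset.sum_le_sum fun i _ => h2 i
      _ = d * (1 / d) := by simp
      _ ≤ 1 := by
        rw [mul_one_div]
        exact div_self_le_one _

theorem integral_indicator_Ioc {k : ℝ → ℝ} (hk : Continuous k) {a b P : ℝ} (ha : 0 ≤ a)
    (hab : a ≤ b) (hbP : b ≤ P) :
    ∫ s in (0 : ℝ)..P, k s * (Ioc a b).indicator (fun _ => 1) s = ∫ s in a..b, k s := by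
  have h1 : ∀ s, k s * (Ioc a b).indicator (fun _ => (1 : ℝ)) s = (Ioc a b).indicator k s := by
    intro s
    by_cases hs : s ∈ Ioc a b
    · rw [indicator_of_mem hs, indicator_of_mem hs, mul_one]
    · rw [indicator_of_notMem hs, indicator_of_notMem hs, mul_zero]
  simp only [h1]
  rw [intervalIntegral.integral_of_le (ha.trans (hab.trans hbP)),
    intervalIntegral.integral_of_le hab, setIntegral_indicator measurableSet_Ioc]
  congr 2
  ext s
  simp only [mem_inter_iff, mem_Ioc]
  constructor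
  · exact fun h => h.2
  · exact fun h => ⟨⟨lt_of_le_of_lt ha h.1, h.2.trans hbP⟩, h⟩

theorem integral_pat {m p r M a b P : ℝ} (hM : 0 ≤ M) (hMa : M ≤ a) (hab : a ≤ b) (hbP : b ≤ P) :
    ∫ s in (0 : ℝ)..P, kk m p s * pat r M a b s =
      r * yk m p M + (yk m p a - yk m p b) := by
  have hkc := kk_cont m p
  have h1 : ∀ᵐ s : ℝ, s ∈ uIoc 0 P → kk m p s * pat r M a b s =
      r * (kk m p s * (Ioc 0 M).indicator (fun _ => 1) s) -
        kk m p s * (Ioc a b).indicator (fun _ => 1) s := by
    have hne : ∀ᵐ r : ℝ, r ≠ 0 := by simp [ae_iff, measure_singleton]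
    filter_upwards [hne] with s hs _
    unfold pat
    have : (Icc 0 M).indicator (fun _ => r) s = r * (Ioc 0 M).indicator (fun _ => 1) s := by
      by_cases h : s ∈ Icc 0 M
      · have h2 : s ∈ Ioc 0 M := ⟨lt_of_le_of_ne h.1 (Ne.symm hs), h.2⟩
        rw [indicator_of_mem h, indicator_of_mem h2, mul_one]
      · have h2 : s ∉ Ioc 0 M := fun h3 => h ⟨h3.1.le, h3.2⟩
        rw [indicator_of_notMem h, indicator_of_notMem h2, mul_zero]
    rw [this]
    ring
  rw [intervalIntegral.integral_congr_ae h1]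
  have hI : ∀ a b : ℝ, IntervalIntegrable
      (fun s => kk m p s * (Ioc a b).indicator (fun _ => (1 : ℝ)) s) volume 0 P := by
    intro a b
    apply intble _ _ _ hkc
    · exact measurable_const.indicator measurableSet_Ioc
    · intro t
      by_cases ht : t ∈ Ioc a b
      · rw [indicator_of_mem ht]; simp
      · rw [indicator_of_notMem ht]; simp
  rw [intervalIntegral.integral_sub ((hI 0 M).const_mul r) (hI a b),
    intervalIntegral.integral_const_mul,
    integral_indicator_Ioc hkc le_rfl hM ((hMa.trans hab).trans hbP),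
    integral_indicator_Ioc hkc (hM.trans hMa) hab hbP, integral_kk, integral_kk]
  have : yk m p 0 = 0 := by simp [yk]
  rw [this]
  ring

/-- the periodic forcing -/
noncomputable def per (P : ℝ) (φ : ℝ → ℝ) (t : ℝ) : ℝ := φ (P * ⌈t / P⌉ - t)

theorem per_meas (P : ℝ) {φ : ℝ → ℝ} (hφ : Measurable φ) : Measurable (per P φ) := by
  unfold per
  apply hφ.comp
  have h1 : Measurable fun t : ℝ => ((⌈t / P⌉ : ℤ) : ℝ) :=
    (measurable_from_top (f := fun n : ℤ => (n : ℝ))).comp
      (Int.measurable_ceil.comp (measurable_id.div_const P))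
  exact (h1.const_mul P).sub measurable_id

theorem per_eq {P : ℝ} (hP : 0 < P) (φ : ℝ → ℝ) (n : ℕ) {s : ℝ} (h0 : 0 ≤ s) (h1 : s < P) :
    per P φ (n * P + P - s) = φ s := by
  unfold per
  have : ⌈(n * P + P - s) / P⌉ = (n : ℤ) + 1 := by
    rw [Int.ceil_eq_iff]
    have e : (n * P + P - s) / P = n + 1 - s / P := by field_simp
    have h2 : s / P < 1 := (div_lt_one hP).2 h1
    have h3 : 0 ≤ s / P := by positivity
    rw [e]
    push_cast
    constructor <;> linarith
  rw [this]
  congr 1
  push_cast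
  ring

/-- lower bound at finite period -/
theorem lower_period (hd : 0 < d) {m p : Fin d → ℝ} (hm : ∀ i, 0 < m i) (hmp : ∀ i, m i < p i)
    (hc : ∀ i, m i + p i = c) {M P : ℝ} {a b : Fin d → ℝ} (hM : 0 ≤ M) (hMa : ∀ i, M ≤ a i)
    (hab : ∀ i, a i ≤ b i) (hbP : ∀ i, b i ≤ P) (hP : 0 < P)
    (hdis : ∀ i j, i ≠ j → b i ≤ a j ∨ b j ≤ a i)
    {K : ℝ≥0∞} (hK : Admissible (Matrix.diagonal fun i => m i * p i) c K) :
    ENNReal.ofReal (∑ i, (yk (m i) (p i) M / d +
      (yk (m i) (p i) (a i) - yk (m i) (p i) (b i)) / √d -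
      2 * exp (-m i * P) / (p i - m i) / √d)) ≤ K := by
  set f : Fin d → ℝ → ℝ := fun i => per P (pat (1 / √d) M (a i) (b i)) with hfdef
  have hf : ∀ i, Measurable (f i) := fun i => per_meas P (pat_meas _ _ _ _)
  have hsq : ∀ t, ∑ i, f i t ^ 2 ≤ 1 := fun t => pat_sq hMa hdis _
  have hf1 : ∀ i t, |f i t| ≤ 1 := by
    intro i t
    rw [← sq_le_one_iff_abs_le_one]
    exact (Finset.single_le_sum (f := fun i => f i t ^ 2) (fun _ _ => sq_nonneg _)
      (Finset.mem_univ i)).trans (hsq t)
  have hnorm : ∀ t, ‖vec fun i => f i t‖ ≤ 1 := by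
    intro t
    have h1 := norm_vec_sq fun i => f i t
    have h2 := hsq t
    rw [← h1] at h2
    exact (sq_le_one_iff₀ (norm_nonneg _)).1 h2
  have hfm : Measurable fun t => vec fun i => f i t := by
    unfold vec
    exact Finset.measurable_fun_sum _ fun i _ => (hf i).smul_const _
  have hloc : LocallyIntegrableOn (fun t => vec fun i => f i t) (Ici 0) := by
    apply LocallyIntegrable.locallyIntegrableOn
    apply (locallyIntegrable_const (1 : ℝ)).mono hfm.aestronglyMeasurable
    exact Eventually.of_forall fun t => by simpa using hnorm t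
  have hforce : force (fun t => vec fun i => f i t) ≤ 1 := by
    apply limsup_le_of_le
    · isBoundedDefault
    exact Eventually.of_forall fun t => by
      rw [← ofReal_norm]
      exact ENNReal.ofReal_le_one.2 (hnorm t)
  have h1 := hK _ _ _ hloc (hforce.trans_lt ENNReal.one_lt_top) (isSol_vec hmp hc hf hf1)
  have h2 : K * force (fun t => vec fun i => f i t) ≤ K := by
    calc K * force (fun t => vec fun i => f i t) ≤ K * 1 := by gcongr
      _ = K := mul_one K
  refine le_trans ?_ (h1.trans h2)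
  apply le_limsup_of_frequently_le
  · rw [frequently_atTop]
    intro t0
    obtain ⟨n, hn⟩ := exists_nat_ge (t0 / P)
    have hnP : t0 ≤ n * P := by rwa [div_le_iff₀ hP] at hn
    refine ⟨n * P + P, by linarith, ?_⟩
    rw [← ofReal_norm]
    apply ENNReal.ofReal_le_ofReal
    have hd0 : (0 : ℝ) < d := by exact_mod_cast hd
    have hsd : 0 < √(d : ℝ) := sqrt_pos.2 hd0
    have hsd2 : √(d : ℝ) * √d = d := mul_self_sqrt hd0.le
    -- Cauchy-Schwarz
    have hCS : (∑ i, vs (m i) (p i) (f i) (n * P + P)) / √d ≤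
        ‖vec fun i => vs (m i) (p i) (f i) (n * P + P)‖ := by
      rw [div_le_iff₀ hsd]
      have h3 := Finset.sum_mul_sq_le_sq_mul_sq Finset.univ
        (fun i => vs (m i) (p i) (f i) (n * P + P)) (fun _ => (1 : ℝ))
      simp only [mul_one, one_pow, Finset.sum_const, Finset.card_univ, Fintype.card_fin,
        nsmul_eq_mul] at h3
      rw [← norm_vec_sq] at h3
      apply le_of_sq_le_sq _ (by positivity)
      rw [mul_pow, sq_sqrt hd0.le]
      exact h3
    refine le_trans ?_ hCS
    rw [Finset.sum_div]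
    apply Finset.sum_le_sum
    intro i _
    have hnP0 : 0 ≤ (n : ℝ) * P := by positivity
    have h4 := vs_lower (hf i) (hf1 i) (hm i) (hmp i) hnP0 hP.le
    have h5 : ∫ s in (0 : ℝ)..P, kk (m i) (p i) s * f i (n * P + P - s) =
        1 / √d * yk (m i) (p i) M + (yk (m i) (p i) (a i) - yk (m i) (p i) (b i)) := by
      rw [← integral_pat hM (hMa i) (hab i) (hbP i)]
      apply intervalIntegral.integral_congr_ae
      have hne : ∀ᵐ r : ℝ, r ≠ P := by simp [ae_iff, measure_singleton]
      filter_upwards [hne] with s hs hs1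
      rw [uIoc_of_le hP.le] at hs1
      rw [hfdef]
      simp only
      rw [per_eq hP _ n hs1.1.le (lt_of_le_of_ne hs1.2 hs)]
    rw [h5] at h4
    have h6 := div_le_div_of_nonneg_right h4 hsd.le
    refine le_trans (le_of_eq ?_) h6
    have : yk (m i) (p i) M / d = 1 / √d * yk (m i) (p i) M / √d := by
      calc yk (m i) (p i) M / d = yk (m i) (p i) M / (√(d : ℝ) * √d) := by rw [hsd2]
        _ = 1 / √d * yk (m i) (p i) M / √d := by field_simp
    rw [this]
    ring
  · isBoundedDefault

/-- lower bound without the period -/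
theorem lower_main (hd : 0 < d) {m p : Fin d → ℝ} (hm : ∀ i, 0 < m i) (hmp : ∀ i, m i < p i)
    (hc : ∀ i, m i + p i = c) {M : ℝ} {a b : Fin d → ℝ} (hM : 0 ≤ M) (hMa : ∀ i, M ≤ a i)
    (hab : ∀ i, a i ≤ b i) (hdis : ∀ i j, i ≠ j → b i ≤ a j ∨ b j ≤ a i)
    {K : ℝ≥0∞} (hK : Admissible (Matrix.diagonal fun i => m i * p i) c K) :
    ENNReal.ofReal (∑ i, (yk (m i) (p i) M / d +
      (yk (m i) (p i) (a i) - yk (m i) (p i) (b i)) / √d)) ≤ K := by
  have h1 : Tendsto (fun P : ℝ => ENNReal.ofReal (∑ i, (yk (m i) (p i) M / d +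
      (yk (m i) (p i) (a i) - yk (m i) (p i) (b i)) / √d -
      2 * exp (-m i * P) / (p i - m i) / √d))) atTop
      (𝓝 (ENNReal.ofReal (∑ i, (yk (m i) (p i) M / d +
      (yk (m i) (p i) (a i) - yk (m i) (p i) (b i)) / √d - 2 * 0 / (p i - m i) / √d)))) := by
    apply ENNReal.tendsto_ofReal
    apply tendsto_finsetSum
    intro i _
    apply Tendsto.const_sub
    apply Tendsto.div_const
    apply Tendsto.div_const
    apply Tendsto.const_mul
    have : Tendsto (fun s : ℝ => -m i * s) atTop atBot :=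
      tendsto_id.const_mul_atTop_of_neg (by linarith [hm i])
    exact tendsto_exp_atBot.comp this
  simp only [mul_zero, zero_div, sub_zero] at h1
  apply le_of_tendsto h1
  have h2 : ∀ᶠ P : ℝ in atTop, ∀ i, b i ≤ P := by
    rw [eventually_all]
    exact fun i => eventually_ge_atTop _
  filter_upwards [h2, eventually_gt_atTop 0] with P hP1 hP2
  exact lower_period hd hm hmp hc hM hMa hab hP1 hP2 hdis hK

end Pool.Agent.R299.Osc
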