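import Pool.Agent.R299.Osc.Upper

/-!
# Explicit scalar solutions in the overdamped case
-/

namespace Pool.Agent.R299.Osc

open MeasureTheory Filter Set Real
open scoped Topology

/-- response of `p' = f - μ p`, `p 0 = 0` -/
noncomputable def pp (μ : ℝ) (f : ℝ → ℝ) (t : ℝ) : ℝ :=
  exp (-μ * t) * ∫ s in (0 : ℝ)..t, exp (μ * s) * f s

variable {μ : ℝ} {f : ℝ → ℝ}

theorem intble (hf : Measurable f) (hf1 : ∀ t, |f t| ≤ 1) (k : ℝ → ℝ) (hk : Continuous k)
    (a b : ℝ) : IntervalIntegrable (fun s => k s * f s) volume a b := by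
  have h1 : IntervalIntegrable f volume a b := by
    have h2 : IntervalIntegrable (fun _ : ℝ => (1 : ℝ)) volume a b := intervalIntegrable_const
    apply h2.mono_fun hf.aestronglyMeasurable
    exact Eventually.of_forall fun t => by simpa using hf1 t
  exact h1.continuousOn_mul hk.continuousOn

theorem pp_ac (hf : Measurable f) (hf1 : ∀ t, |f t| ≤ 1) {t : ℝ} (ht : 0 ≤ t) :
    AbsolutelyContinuousOnInterval (pp μ f) 0 t := by
  have h1 := (intble hf hf1 (fun s => exp (μ * s)) (by fun_prop) 0 t)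
  have h2 := h1.absolutelyContinuousOnInterval_intervalIntegral (c := 0) (by simp)
  have h3 : AbsolutelyContinuousOnInterval (fun s => exp (-μ * s)) 0 t :=
    ac_of_deriv ht (v := fun s => exp (-μ * s) * (-μ))
      (Continuous.continuousOn (by fun_prop)) fun s _ => (exp_deriv (-μ) s).hasDerivWithinAt
  exact h3.fun_mul h2

theorem pp_deriv (hf : Measurable f) (hf1 : ∀ t, |f t| ≤ 1) :
    ∀ᵐ t : ℝ, 0 < t → HasDerivAt (pp μ f) (f t - μ * pp μ f t) t := by
  have h0 : ∀ n : ℕ, ∀ᵐ t : ℝ, t ∈ uIcc (0 : ℝ) n → ∀ c ∈ uIcc (0 : ℝ) n,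
      HasDerivAt (fun x => ∫ s in c..x, exp (μ * s) * f s) (exp (μ * t) * f t) t := fun n =>
    (intble hf hf1 (fun s => exp (μ * s)) (by fun_prop) 0 n).ae_hasDerivAt_integral
  filter_upwards [ae_all_iff.2 h0] with t ht ht0
  obtain ⟨n, hn⟩ := exists_nat_ge t
  have h1 := ht n (by rw [uIcc_of_le (Nat.cast_nonneg n)]; exact ⟨ht0.le, hn⟩) 0 (by simp)
  refine ((exp_deriv (-μ) t).fun_mul h1).congr_deriv ?_
  have h2 : exp (-μ * t) * exp (μ * t) = 1 := by rw [← exp_add]; simp
  unfold pp
  linear_combination f t * h2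

theorem pp_cont (hf : Measurable f) (hf1 : ∀ t, |f t| ≤ 1) : Continuous (pp μ f) := by
  unfold pp
  apply Continuous.mul (by fun_prop)
  exact intervalIntegral.continuous_primitive
    (fun a b => intble hf hf1 (fun s => exp (μ * s)) (by fun_prop) a b) 0

theorem pp_eq (μ : ℝ) (f : ℝ → ℝ) (t : ℝ) :
    pp μ f t = ∫ s in (0 : ℝ)..t, exp (-μ * s) * f (t - s) := by
  have h1 := intervalIntegral.integral_comp_sub_left (a := 0) (b := t)
    (fun s => exp (-μ * (t - s)) * f s) t
  simp only [sub_sub_cancel, sub_self, sub_zero] at h1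
  rw [h1]
  unfold pp
  rw [← intervalIntegral.integral_const_mul]
  apply intervalIntegral.integral_congr
  intro s _
  simp only
  rw [← mul_assoc, ← exp_add]
  congr 2
  ring

theorem pp_bound (hf : Measurable f) (hf1 : ∀ t, |f t| ≤ 1) (hμ : 0 < μ) {t : ℝ} (ht : 0 ≤ t) :
    |pp μ f t| ≤ 1 / μ := by
  rw [pp_eq, ← Real.norm_eq_abs]
  have h1 : ‖∫ s in (0 : ℝ)..t, exp (-μ * s) * f (t - s)‖ ≤ ∫ s in (0 : ℝ)..t, exp (-μ * s) := by
    apply intervalIntegral.norm_integral_le_of_norm_le ht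
    · exact Eventually.of_forall fun s _ => by
        rw [norm_mul, Real.norm_eq_abs, Real.norm_eq_abs, abs_of_pos (exp_pos _)]
        have := mul_le_mul_of_nonneg_left (hf1 (t - s)) (exp_pos (-μ * s)).le
        linarith
    · exact Continuous.intervalIntegrable (by fun_prop) _ _
  refine h1.trans ?_
  rw [integral_exp_neg μ hμ]
  have := exp_pos (-μ * t)
  simp only [mul_zero, exp_zero]
  gcongr
  linarith

theorem pp_shift (hf : Measurable f) (hf1 : ∀ t, |f t| ≤ 1) (t P : ℝ) :
    pp μ f (t + P) = exp (-μ * P) * pp μ f t + ∫ s in (0 : ℝ)..P, exp (-μ * s) * f (t + P - s) := by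
  rw [pp_eq μ f (t + P), pp_eq μ f t]
  have hf' : Measurable fun s => f (t + P - s) := hf.comp (measurable_const.sub measurable_id)
  have hI := fun a b => intble hf' (fun s => hf1 _) (fun s => exp (-μ * s)) (by fun_prop) a b
  rw [← intervalIntegral.integral_add_adjacent_intervals (hI 0 P) (hI P (t + P)), add_comm]
  congr 1
  rw [← intervalIntegral.integral_const_mul]
  have h2 := intervalIntegral.integral_comp_add_right (a := 0) (b := t)
    (fun s => exp (-μ * s) * f (t + P - s)) P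
  rw [zero_add] at h2
  rw [← h2]
  apply intervalIntegral.integral_congr
  intro s _
  simp only
  rw [← mul_assoc, ← exp_add]
  congr 2
  · ring
  · ring

/-- the kernels -/
noncomputable def kk (m p : ℝ) (s : ℝ) : ℝ := (p * exp (-p * s) - m * exp (-m * s)) / (p - m)

noncomputable def yk (m p : ℝ) (s : ℝ) : ℝ := (exp (-m * s) - exp (-p * s)) / (p - m)

theorem yk_deriv {m p : ℝ} (s : ℝ) : HasDerivAt (yk m p) (kk m p s) s := by
  refine (((exp_deriv (-m) s).fun_sub (exp_deriv (-p) s)).div_const (p - m)).congr_deriv ?_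
  unfold kk
  ring

theorem kk_cont (m p : ℝ) : Continuous (kk m p) := by
  unfold kk
  fun_prop

theorem integral_kk (m p a b : ℝ) : ∫ s in a..b, kk m p s = yk m p b - yk m p a :=
  intervalIntegral.integral_eq_sub_of_hasDerivAt (fun s _ => yk_deriv s)
    ((kk_cont m p).intervalIntegrable _ _)

/-- the scalar solution and its velocity -/
noncomputable def xs (m p : ℝ) (f : ℝ → ℝ) (t : ℝ) : ℝ := (pp m f t - pp p f t) / (p - m)

noncomputable def vs (m p : ℝ) (f : ℝ → ℝ) (t : ℝ) : ℝ := (p * pp p f t - m * pp m f t) / (p - m)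

variable {m p : ℝ}

theorem vs_cont (hf : Measurable f) (hf1 : ∀ t, |f t| ≤ 1) : Continuous (vs m p f) := by
  have h1 := pp_cont (μ := m) hf hf1
  have h2 := pp_cont (μ := p) hf hf1
  unfold vs
  fun_prop

theorem vs_ac (hf : Measurable f) (hf1 : ∀ t, |f t| ≤ 1) {t : ℝ} (ht : 0 ≤ t) :
    AbsolutelyContinuousOnInterval (vs m p f) 0 t := by
  have h1 := pp_ac (μ := m) hf hf1 ht
  have h2 := pp_ac (μ := p) hf hf1 ht
  have h3 := ((h2.const_mul p).fun_sub (h1.const_mul m)).const_mul (1 / (p - m))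
  have : vs m p f = fun t => 1 / (p - m) * (p * pp p f t - m * pp m f t) := by
    funext t
    unfold vs
    ring
  rw [this]
  exact h3

theorem xs_ac (hf : Measurable f) (hf1 : ∀ t, |f t| ≤ 1) {t : ℝ} (ht : 0 ≤ t) :
    AbsolutelyContinuousOnInterval (xs m p f) 0 t := by
  have h1 := pp_ac (μ := m) hf hf1 ht
  have h2 := pp_ac (μ := p) hf hf1 ht
  have h3 := (h1.fun_sub h2).const_mul (1 / (p - m))
  have : xs m p f = fun t => 1 / (p - m) * (pp m f t - pp p f t) := by
    funext t
    unfold xs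
    ring
  rw [this]
  exact h3

theorem vs_deriv (hf : Measurable f) (hf1 : ∀ t, |f t| ≤ 1) (hmp : m < p) :
    ∀ᵐ t : ℝ, 0 < t → HasDerivAt (vs m p f) (f t - (m + p) * vs m p f t - m * p * xs m p f t) t := by
  filter_upwards [pp_deriv (μ := m) hf hf1, pp_deriv (μ := p) hf hf1] with t h1 h2 ht
  have h3 := (((h2 ht).const_mul p).fun_sub ((h1 ht).const_mul m)).div_const (p - m)
  refine h3.congr_deriv ?_
  have : p - m ≠ 0 := (sub_pos.2 hmp).ne'
  unfold vs xs
  field_simp
  ring

theorem xs_deriv (hf : Measurable f) (hf1 : ∀ t, |f t| ≤ 1) (hmp : m < p) {t : ℝ} (ht : 0 ≤ t) :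
    HasDerivWithinAt (xs m p f) (vs m p f t) (Ici 0) t := by
  have hvc := vs_cont (m := m) (p := p) hf hf1
  have hpm : p - m ≠ 0 := (sub_pos.2 hmp).ne'
  have key : ∀ s, 0 ≤ s → xs m p f s = ∫ r in (0 : ℝ)..s, vs m p f r := by
    intro s hs
    have ac : AbsolutelyContinuousOnInterval
        (fun s => xs m p f s - ∫ r in (0 : ℝ)..s, vs m p f r) 0 s :=
      (xs_ac hf hf1 hs).fun_sub
        ((hvc.intervalIntegrable 0 s).absolutelyContinuousOnInterval_intervalIntegral
          (c := 0) (by simp))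
    have h0 : ∀ᵐ r : ℝ, r ∈ uIcc 0 s →
        HasDerivAt (fun s => xs m p f s - ∫ r in (0 : ℝ)..s, vs m p f r) 0 r := by
      have hne : ∀ᵐ r : ℝ, r ≠ 0 := by simp [ae_iff, measure_singleton]
      filter_upwards [pp_deriv (μ := m) hf hf1, pp_deriv (μ := p) hf hf1, hne] with r h1 h2 h3 h4
      rw [uIcc_of_le hs] at h4
      have h5 : 0 < r := lt_of_le_of_ne h4.1 (Ne.symm h3)
      have h6 := ((h1 h5).fun_sub (h2 h5)).div_const (p - m)
      have h7 := (hvc.integral_hasStrictDerivAt 0 r).hasDerivAt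
      refine (h6.fun_sub h7).congr_deriv ?_
      unfold vs
      field_simp
      ring
    obtain ⟨C, hC⟩ := ac.const_of_ae_hasDerivAt_zero h0
    have h1 := hC 0 (by simp)
    have h2 := hC s (by simp)
    have h3 : xs m p f 0 = 0 := by simp [xs, pp]
    simp only [intervalIntegral.integral_same, h3, sub_zero] at h1
    linarith
  have h7 := (hvc.integral_hasStrictDerivAt 0 t).hasDerivAt.hasDerivWithinAt (s := Ici 0)
  exact h7.congr (fun s hs => key s hs) (key t ht)

theorem vs_lower (hf : Measurable f) (hf1 : ∀ t, |f t| ≤ 1) (hm : 0 < m) (hmp : m < p)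
    {t P : ℝ} (ht : 0 ≤ t) (hP : 0 ≤ P) :
    (∫ s in (0 : ℝ)..P, kk m p s * f (t + P - s)) - 2 * exp (-m * P) / (p - m) ≤
      vs m p f (t + P) := by
  have hpm : 0 < p - m := sub_pos.2 hmp
  have hp : 0 < p := hm.trans hmp
  have hf' : Measurable fun s => f (t + P - s) := hf.comp (measurable_const.sub measurable_id)
  have h1 : ∫ s in (0 : ℝ)..P, kk m p s * f (t + P - s) =
      (p * (∫ s in (0 : ℝ)..P, exp (-p * s) * f (t + P - s)) -
        m * ∫ s in (0 : ℝ)..P, exp (-m * s) * f (t + P - s)) / (p - m) := by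
    rw [← intervalIntegral.integral_const_mul, ← intervalIntegral.integral_const_mul,
      ← intervalIntegral.integral_sub, ← intervalIntegral.integral_div]
    · apply intervalIntegral.integral_congr
      intro s _
      simp only [kk]
      ring
    · exact (intble hf' (fun s => hf1 _) (fun s => exp (-p * s)) (by fun_prop) 0 P).const_mul p
    · exact (intble hf' (fun s => hf1 _) (fun s => exp (-m * s)) (by fun_prop) 0 P).const_mul m
  have h2 : vs m p f (t + P) = (∫ s in (0 : ℝ)..P, kk m p s * f (t + P - s)) +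
      (p * (exp (-p * P) * pp p f t) - m * (exp (-m * P) * pp m f t)) / (p - m) := by
    rw [h1]
    unfold vs
    rw [pp_shift hf hf1, pp_shift hf hf1]
    ring
  rw [h2]
  have h3 : |pp p f t| ≤ 1 / p := pp_bound hf hf1 hp ht
  have h4 : |pp m f t| ≤ 1 / m := pp_bound hf hf1 hm ht
  have h5 : |p * pp p f t| ≤ 1 := by
    rw [abs_mul, abs_of_pos hp]
    calc p * |pp p f t| ≤ p * (1 / p) := by gcongr
      _ = 1 := by field_simp
  have h6 : |m * pp m f t| ≤ 1 := by
    rw [abs_mul, abs_of_pos hm]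
    calc m * |pp m f t| ≤ m * (1 / m) := by gcongr
      _ = 1 := by field_simp
  have h7 : exp (-p * P) ≤ exp (-m * P) := by
    apply exp_le_exp.2
    nlinarith
  have h8 := (abs_le.1 h5).1
  have h9 := (abs_le.1 h6).2
  have e1 := exp_pos (-p * P)
  have e2 := exp_pos (-m * P)
  have h10 : -(2 * exp (-m * P)) ≤ p * (exp (-p * P) * pp p f t) - m * (exp (-m * P) * pp m f t) := by
    have a1 := mul_le_mul_of_nonneg_left h8 e1.le
    have a2 := mul_le_mul_of_nonneg_left h9 e2.le
    nlinarith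
  have h11 := div_le_div_of_nonneg_right h10 hpm.le
  rw [neg_div] at h11
  linarith

end Pool.Agent.R299.Osc
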