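import Pool.Agent.R299.Osc.Duhamel
import Pool.Agent.R299.Osc.Defs

/-!
# The upper bound `K(A, c) ≤ (1 + √d) / c`
-/

namespace Pool.Agent.R299.Osc

open MeasureTheory Filter Set
open scoped Topology ENNReal InnerProductSpace

theorem ac_clm {E : Type*} [NormedAddCommGroup E] [NormedSpace ℝ E] {v : ℝ → E} {a b : ℝ}
    (h : AbsolutelyContinuousOnInterval v a b) (F : E →L[ℝ] ℝ) :
    AbsolutelyContinuousOnInterval (fun t => F (v t)) a b := by
  unfold AbsolutelyContinuousOnInterval at h ⊢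
  have h2 := h.const_mul ‖F‖
  rw [mul_zero] at h2
  apply squeeze_zero (fun t => Finset.sum_nonneg fun _ _ => dist_nonneg) (fun t => ?_) h2
  rw [Finset.mul_sum]
  apply Finset.sum_le_sum
  intro i _
  rw [dist_eq_norm, dist_eq_norm, ← map_sub]
  exact F.le_opNorm _

theorem ptw {d : ℕ} (ε φ g ex : Fin d → ℝ) {E N : ℝ} (hε : ∑ i, ε i ^ 2 ≤ 1)
    (hφ : ∑ i, φ i ^ 2 ≤ N ^ 2) (hN : 0 ≤ N) (hE : 0 ≤ E) (hex : ∀ i, 0 ≤ ex i)
    (hg : ∀ i, |g i| ≤ E + ex i) :
    |∑ i, ε i * (g i * φ i)| ≤ N * (E + ∑ i, |ε i| * ex i) := by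
  have h1 : ∀ i, |φ i| ≤ N := by
    intro i
    refine abs_le_of_sq_le_sq ?_ hN
    exact (Finset.single_le_sum (f := fun i => φ i ^ 2) (fun _ _ => sq_nonneg _)
      (Finset.mem_univ i)).trans hφ
  have h2 : ∑ i, |ε i| * |φ i| ≤ N := by
    have h3 := Finset.sum_mul_sq_le_sq_mul_sq Finset.univ (fun i => |ε i|) (fun i => |φ i|)
    simp only [sq_abs] at h3
    have h4 : (∑ i, |ε i| * |φ i|) ^ 2 ≤ N ^ 2 := by
      refine h3.trans ?_
      calc (∑ i, ε i ^ 2) * ∑ i, φ i ^ 2 ≤ 1 * N ^ 2 := by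
            apply mul_le_mul hε hφ (Finset.sum_nonneg fun _ _ => sq_nonneg _) zero_le_one
        _ = N ^ 2 := one_mul _
    exact le_of_sq_le_sq h4 hN
  calc |∑ i, ε i * (g i * φ i)| ≤ ∑ i, |ε i * (g i * φ i)| := Finset.abs_sum_le_sum_abs _ _
    _ ≤ ∑ i, (E * (|ε i| * |φ i|) + N * (|ε i| * ex i)) := by
      apply Finset.sum_le_sum
      intro i _
      rw [abs_mul, abs_mul]
      have h5 : |ε i| * (|g i| * |φ i|) ≤ |ε i| * ((E + ex i) * |φ i|) := by
        gcongr
        exact hg i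
      have h6 : |ε i| * (ex i * |φ i|) ≤ |ε i| * (ex i * N) := by
        gcongr
        · exact hex i
        · exact h1 i
      nlinarith
    _ = E * (∑ i, |ε i| * |φ i|) + N * ∑ i, |ε i| * ex i := by
      rw [Finset.sum_add_distrib, Finset.mul_sum, Finset.mul_sum]
    _ ≤ E * N + N * ∑ i, |ε i| * ex i := by gcongr
    _ = N * (E + ∑ i, |ε i| * ex i) := by ring

theorem sum_abs_le {d : ℕ} (ε : Fin d → ℝ) (hε : ∑ i, ε i ^ 2 ≤ 1) : ∑ i, |ε i| ≤ √d := by
  have h3 := Finset.sum_mul_sq_le_sq_mul_sq Finset.univ (fun i => |ε i|) (fun _ => (1 : ℝ))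
  simp only [sq_abs, mul_one, one_pow, Finset.sum_const, Finset.card_univ, Fintype.card_fin,
    nsmul_eq_mul] at h3
  apply Real.le_sqrt_of_sq_le
  calc (∑ i, |ε i|) ^ 2 ≤ (∑ i, ε i ^ 2) * d := h3
    _ ≤ 1 * d := by gcongr
    _ = d := one_mul _

variable {d : ℕ} {A : Matrix (Fin d) (Fin d) ℝ} {c : ℝ}

theorem upper_aux (hA : A.PosDef) (hc : 0 < c) {f u v : ℝ → EuclideanSpace ℝ (Fin d)}
    (hs : IsSol A c f u v) {T F : ℝ} (hT : 0 ≤ T) (hF : 0 ≤ F)
    (hfF : ∀ᵐ s : ℝ, T < s → ‖f s‖ ≤ F) :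
    ∃ H : ℝ → ℝ, Tendsto H atTop (𝓝 0) ∧
      ∀ t, T ≤ t → ‖v t‖ ≤ H t + F * ((1 + √d) / c) := by
  have hH := hA.isHermitian
  set b := hH.eigenvectorBasis with hb
  set l := hH.eigenvalues with hl
  have hlp : ∀ i, 0 < l i := fun i => hA.eigenvalues_pos i
  choose y g hK hex using fun i => exists_ker (c := c) hc (hlp i)
  have hsym : ∀ i (w : EuclideanSpace ℝ (Fin d)),
      ⟪b i, Matrix.toEuclideanLin A w⟫_ℝ = l i * ⟪b i, w⟫_ℝ := by
    intro i w
    have h1 := (Matrix.isSymmetric_toEuclideanLin_iff.2 hH) (b i) w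
    rw [← h1]
    have h2 : Matrix.toEuclideanLin A (b i) = l i • b i := by
      have h3 := hH.mulVec_eigenvectorBasis i
      ext j
      have h4 := congrFun h3 j
      simpa [Matrix.toEuclideanLin_apply] using h4
    rw [h2, inner_smul_left]
    simp
  have hx : ∀ i t, 0 ≤ t → HasDerivWithinAt (fun t => ⟪b i, u t⟫_ℝ) (⟪b i, v t⟫_ℝ) (Ici 0) t := by
    intro i t ht
    exact (innerSL ℝ (b i)).hasFDerivAt.comp_hasDerivWithinAt t (hs.deriv_u t ht)
  have hvc : ∀ i, ContinuousOn (fun t => ⟪b i, v t⟫_ℝ) (Ici 0) := by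
    intro i
    exact (innerSL ℝ (b i)).continuous.comp_continuousOn hs.cont_v
  have hv : ∀ i t, 0 ≤ t → AbsolutelyContinuousOnInterval (fun t => ⟪b i, v t⟫_ℝ) 0 t := by
    intro i t ht
    exact ac_clm (hs.ac_v t ht) (innerSL ℝ (b i))
  have he : ∀ i, ∀ᵐ t : ℝ, 0 < t → HasDerivAt (fun t => ⟪b i, v t⟫_ℝ)
      (⟪b i, f t⟫_ℝ - c * ⟪b i, v t⟫_ℝ - l i * ⟪b i, u t⟫_ℝ) t := by
    intro i
    filter_upwards [hs.eqn] with t ht ht0
    have h1 := (innerSL ℝ (b i)).hasFDerivAt.comp_hasDerivAt t (ht ht0)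
    refine h1.congr_deriv ?_
    simp only [innerSL_apply_apply, inner_sub_right, inner_smul_right, hsym]
  refine ⟨fun t => ∑ i, (|g i (t - T)| * |⟪b i, v T⟫_ℝ| +
    l i * (|y i (t - T)| * |⟪b i, u T⟫_ℝ|)), ?_, ?_⟩
  · have hsub : Tendsto (fun t : ℝ => t - T) atTop atTop := tendsto_atTop_add_const_right _ _ tendsto_id
    have : Tendsto (fun t => ∑ i, (|g i (t - T)| * |⟪b i, v T⟫_ℝ| +
        l i * (|y i (t - T)| * |⟪b i, u T⟫_ℝ|))) atTop (𝓝 (∑ i : Fin d, (|(0 : ℝ)| * |⟪b i, v T⟫_ℝ| +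
        l i * (|(0 : ℝ)| * |⟪b i, u T⟫_ℝ|)))) := by
      apply tendsto_finsetSum
      intro i _
      exact (((((hK i).tendsto_g hc (hlp i)).comp hsub).abs).mul_const _).add
        ((((((hK i).tendsto_y hc (hlp i)).comp hsub).abs).mul_const _).const_mul _)
    simpa using this
  · intro t ht
    have hsq : ∀ w : EuclideanSpace ℝ (Fin d), ∑ i, ⟪b i, w⟫_ℝ ^ 2 = ‖w‖ ^ 2 := by
      intro w
      have := b.sum_sq_norm_inner_right w
      simpa using this
    have hHnn : 0 ≤ ∑ i, (|g i (t - T)| * |⟪b i, v T⟫_ℝ| +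
        l i * (|y i (t - T)| * |⟪b i, u T⟫_ℝ|)) := by
      apply Finset.sum_nonneg
      intro i _
      have := (hlp i).le
      positivity
    rcases eq_or_ne (v t) 0 with h0 | h0
    · rw [h0, norm_zero]
      positivity
    have hn : 0 < ‖v t‖ := norm_pos_iff.2 h0
    set ε : Fin d → ℝ := fun i => ⟪b i, v t⟫_ℝ / ‖v t‖ with hε
    have hε1 : ∑ i, ε i ^ 2 ≤ 1 := by
      simp only [hε, div_pow]
      rw [← Finset.sum_div, hsq, div_self (by positivity)]
    have hεi : ∀ i, |ε i| ≤ 1 := by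
      intro i
      rw [← sq_le_one_iff_abs_le_one]
      exact (Finset.single_le_sum (f := fun i => ε i ^ 2) (fun _ _ => sq_nonneg _)
        (Finset.mem_univ i)).trans hε1
    have hnorm : ‖v t‖ = ∑ i, ε i * ⟪b i, v t⟫_ℝ := by
      have : ∑ i, ε i * ⟪b i, v t⟫_ℝ = (∑ i, ⟪b i, v t⟫_ℝ ^ 2) / ‖v t‖ := by
        rw [Finset.sum_div]
        apply Finset.sum_congr rfl
        intro i _
        simp only [hε]
        ring
      rw [this, hsq]
      field_simp
    have hD := fun i => duhamel (hK i) (hx i) (hvc i) (hv i) (he i) hT ht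
    have hcont1 : Continuous fun s => Real.exp (-c * (t - s)) := by fun_prop
    have hcont2 : ∀ i, Continuous fun s => exc c (g i) (t - s) := fun i =>
      (hK i).cexc.comp (by fun_prop)
    have hcontS : Continuous fun s => ∑ i, |ε i| * exc c (g i) (t - s) :=
      continuous_finsetSum _ fun i _ => (hcont2 i).const_mul _ |> fun h => h
    -- the integral
    have hint : |∫ s in T..t, ∑ i, ε i * (g i (t - s) * ⟪b i, f s⟫_ℝ)| ≤
        ∫ s in T..t, F * (Real.exp (-c * (t - s)) + ∑ i, |ε i| * exc c (g i) (t - s)) := by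
      rw [← Real.norm_eq_abs]
      apply intervalIntegral.norm_integral_le_of_norm_le ht
      · filter_upwards [hfF] with s hsF hs1
        have h1 : ‖f s‖ ≤ F := hsF hs1.1
        rw [Real.norm_eq_abs]
        apply ptw ε (fun i => ⟪b i, f s⟫_ℝ) (fun i => g i (t - s))
          (fun i => exc c (g i) (t - s)) hε1 _ hF (Real.exp_pos _).le
          (fun i => exc_nonneg _ _ _) (fun i => le_exc _ _ _)
        rw [hsq]
        gcongr
      · exact (hcont1.add hcontS).const_mul F |>.intervalIntegrable _ _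
    have hint2 : ∫ s in T..t, F * (Real.exp (-c * (t - s)) + ∑ i, |ε i| * exc c (g i) (t - s)) ≤
        F * ((1 + √d) / c) := by
      rw [intervalIntegral.integral_const_mul]
      apply mul_le_mul_of_nonneg_left _ hF
      rw [intervalIntegral.integral_add (hcont1.intervalIntegrable _ _)
        (hcontS.intervalIntegrable _ _), intervalIntegral.integral_finsetSum
        (fun i _ => ((hcont2 i).const_mul _).intervalIntegrable _ _)]
      have e1 : ∫ s in T..t, Real.exp (-c * (t - s)) ≤ 1 / c := by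
        rw [intervalIntegral.integral_comp_sub_left (fun s => Real.exp (-c * s)), sub_self,
          integral_exp_neg c hc]
        have := Real.exp_pos (-c * (t - T))
        simp only [mul_zero, Real.exp_zero]
        gcongr
        linarith
      have e2 : ∀ i, ∫ s in T..t, |ε i| * exc c (g i) (t - s) ≤ |ε i| * (1 / c) := by
        intro i
        rw [intervalIntegral.integral_const_mul,
          intervalIntegral.integral_comp_sub_left (fun s => exc c (g i) s), sub_self]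
        exact mul_le_mul_of_nonneg_left (hex i (t - T) (by linarith)) (abs_nonneg _)
      calc (∫ s in T..t, Real.exp (-c * (t - s))) +
            ∑ i, ∫ s in T..t, |ε i| * exc c (g i) (t - s)
          ≤ 1 / c + ∑ i, |ε i| * (1 / c) := add_le_add e1 (Finset.sum_le_sum fun i _ => e2 i)
        _ = 1 / c + (∑ i, |ε i|) * (1 / c) := by rw [Finset.sum_mul]
        _ ≤ 1 / c + √d * (1 / c) := by
          gcongr
          exact sum_abs_le ε hε1
        _ = (1 + √d) / c := by ring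
    calc ‖v t‖ = ∑ i, ε i * ⟪b i, v t⟫_ℝ := hnorm
      _ = ∑ i, (ε i * (g i (t - T) * ⟪b i, v T⟫_ℝ - l i * (y i (t - T) * ⟪b i, u T⟫_ℝ)) +
            ∫ s in T..t, ε i * (g i (t - s) * ⟪b i, f s⟫_ℝ)) := by
          apply Finset.sum_congr rfl
          intro i _
          rw [(hD i).2, intervalIntegral.integral_const_mul]
          ring
      _ = (∑ i, ε i * (g i (t - T) * ⟪b i, v T⟫_ℝ - l i * (y i (t - T) * ⟪b i, u T⟫_ℝ))) +
            ∫ s in T..t, ∑ i, ε i * (g i (t - s) * ⟪b i, f s⟫_ℝ) := by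
          rw [Finset.sum_add_distrib, intervalIntegral.integral_finsetSum]
          intro i _
          exact (hD i).1.const_mul _
      _ ≤ (∑ i, (|g i (t - T)| * |⟪b i, v T⟫_ℝ| + l i * (|y i (t - T)| * |⟪b i, u T⟫_ℝ|))) +
            F * ((1 + √d) / c) := by
          apply add_le_add
          · apply Finset.sum_le_sum
            intro i _
            refine (le_abs_self _).trans ?_
            rw [abs_mul]
            have h1 : |g i (t - T) * ⟪b i, v T⟫_ℝ - l i * (y i (t - T) * ⟪b i, u T⟫_ℝ)| ≤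
                |g i (t - T)| * |⟪b i, v T⟫_ℝ| + l i * (|y i (t - T)| * |⟪b i, u T⟫_ℝ|) := by
              refine (abs_sub _ _).trans ?_
              rw [abs_mul, abs_mul, abs_mul, abs_of_pos (hlp i)]
            have h2 : 0 ≤ |g i (t - T)| * |⟪b i, v T⟫_ℝ| +
                l i * (|y i (t - T)| * |⟪b i, u T⟫_ℝ|) := (abs_nonneg _).trans h1
            calc |ε i| * |g i (t - T) * ⟪b i, v T⟫_ℝ - l i * (y i (t - T) * ⟪b i, u T⟫_ℝ)|
                ≤ 1 * (|g i (t - T)| * |⟪b i, v T⟫_ℝ| +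
                  l i * (|y i (t - T)| * |⟪b i, u T⟫_ℝ|)) :=
                  mul_le_mul (hεi i) h1 (abs_nonneg _) zero_le_one
              _ = _ := one_mul _
          · exact (le_abs_self _).trans (hint.trans hint2)

theorem upper (hA : A.PosDef) (hc : 0 < c) :
    Admissible A c (ENNReal.ofReal ((1 + √d) / c)) := by
  intro f u v _ hff hs
  set κ := (1 + √d) / c with hκ
  have hκ0 : 0 ≤ κ := by positivity
  have key : ∀ η : ℝ, 0 < η → limsup (fun t => ‖v t‖ₑ) atTop ≤
      ENNReal.ofReal (κ * (force f).toReal + (κ + 1) * η) := by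
    intro η hη
    have h1 : force f < ENNReal.ofReal ((force f).toReal + η) := by
      rw [ENNReal.lt_ofReal_iff_toReal_lt hff.ne]
      linarith
    have h2 := eventually_lt_of_limsup_lt h1
    rw [Filter.Eventually, Filter.mem_inf_iff] at h2
    obtain ⟨s1, hs1, s2, hs2, h3⟩ := h2
    obtain ⟨T, hT⟩ := mem_atTop_sets.1 hs1
    have h4 : ∀ᵐ s : ℝ, max T 0 < s → ‖f s‖ ≤ (force f).toReal + η := by
      filter_upwards [hs2] with s hs3 hs4
      have h5 : s ∈ s1 ∩ s2 := ⟨hT s ((le_max_left _ _).trans hs4.le), hs3⟩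
      rw [← h3] at h5
      have h6 : ‖f s‖ₑ < ENNReal.ofReal ((force f).toReal + η) := h5
      rw [← ofReal_norm] at h6
      exact ((ENNReal.ofReal_lt_ofReal_iff (by positivity)).1 h6).le
    obtain ⟨H, hH, hb⟩ := upper_aux hA hc hs (le_max_right T 0)
      (by positivity : 0 ≤ (force f).toReal + η) h4
    apply limsup_le_of_le
    · isBoundedDefault
    filter_upwards [eventually_ge_atTop (max T 0), hH.eventually (gt_mem_nhds hη)] with t ht1 ht2
    rw [← ofReal_norm]
    apply ENNReal.ofReal_le_ofReal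
    have := hb t ht1
    rw [← hκ] at this
    linarith
  have h2 : Tendsto (fun η : ℝ => ENNReal.ofReal (κ * (force f).toReal + (κ + 1) * η)) (𝓝[>] 0)
      (𝓝 (ENNReal.ofReal (κ * (force f).toReal + (κ + 1) * 0))) := by
    apply ENNReal.tendsto_ofReal
    apply Tendsto.mono_left _ nhdsWithin_le_nhds
    apply Continuous.tendsto
    fun_prop
  have h3 := ge_of_tendsto h2 (by
    filter_upwards [self_mem_nhdsWithin] with η hη
    exact key η hη)
  rw [mul_zero, add_zero, ENNReal.ofReal_mul hκ0, ENNReal.ofReal_toReal hff.ne] at h3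
  exact h3

end Pool.Agent.R299.Osc
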